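import Mathlib
import Pool.Agent.H892.KT.Stm

set_option autoImplicit false

open Filter Topology Set

namespace Pool.Agent.H897.KT

open Pool.Agent.H892.KT

noncomputable section

abbrev RR : Type := MvPolynomial (Fin 2) ℂ

lemma ev_mul (P Q : RR) (p : ℂ × ℂ) : ev (P * Q) p = ev P p * ev Q p := by simp [ev]
lemma ev_add (P Q : RR) (p : ℂ × ℂ) : ev (P + Q) p = ev P p + ev Q p := by simp [ev]
lemma ev_sub (P Q : RR) (p : ℂ × ℂ) : ev (P - Q) p = ev P p - ev Q p := by simp [ev]
lemma ev_one (p : ℂ × ℂ) : ev (1 : RR) p = 1 := by simp [ev]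
lemma ev_zero (p : ℂ × ℂ) : ev (0 : RR) p = 0 := by simp [ev]
lemma ev_C (c : ℂ) (p : ℂ × ℂ) : ev (MvPolynomial.C c : RR) p = c := by simp [ev]
lemma ev_X0 (p : ℂ × ℂ) : ev (MvPolynomial.X 0 : RR) p = p.1 := by simp [ev]
lemma ev_X1 (p : ℂ × ℂ) : ev (MvPolynomial.X 1 : RR) p = p.2 := by simp [ev]

lemma zero_of_dense (hU : S_UNIQ) {V : Set (ℂ × ℂ)} (hV : IsOpen V) {h : ℂ × ℂ → ℂ}
    (hc : ContinuousOn h V) {B : RR} (hB : B ≠ 0) (hz : ∀ q ∈ V, ev B q ≠ 0 → h q = 0) :
    ∀ q ∈ V, h q = 0 := by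
  intro q0 hq0
  by_contra hne
  have hW : IsOpen (V ∩ h ⁻¹' {0}ᶜ) := hc.isOpen_inter_preimage hV isOpen_compl_singleton
  obtain ⟨q, ⟨hqV, hq⟩, hq'⟩ := (hU.2.2 B hB).inter_open_nonempty _ hW ⟨q0, hq0, hne⟩
  exact hq (hz q hqV hq')

lemma exists_frac (f : RatField) : ∃ P Q : RR, Q ≠ 0 ∧
    algebraMap RR RatField Q * f = algebraMap RR RatField P := by
  obtain ⟨⟨P, Q⟩, h⟩ := IsLocalization.surj (nonZeroDivisors RR) f
  exact ⟨P, Q, nonZeroDivisors.ne_zero Q.2, by rw [mul_comm]; exact h⟩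

lemma am_inj {P Q : RR} (h : algebraMap RR RatField P = algebraMap RR RatField Q) : P = Q :=
  IsFractionRing.injective RR RatField h

lemma am_ne {P : RR} (h : P ≠ 0) : algebraMap RR RatField P ≠ 0 := by
  intro h1
  exact h (am_inj (by rw [h1, map_zero]))

/-- the rational function `f` represents `g` on `V` -/
def Rep (V : Set (ℂ × ℂ)) (f : RatField) (g : ℂ × ℂ → ℂ) : Prop :=
  ∀ P Q : RR, algebraMap RR RatField Q * f = algebraMap RR RatField P →
    ∀ p ∈ V, ev Q p * g p = ev P p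

lemma rep_mk (hU : S_UNIQ) {V : Set (ℂ × ℂ)} (hV : IsOpen V) {g : ℂ × ℂ → ℂ}
    (hc : ContinuousOn g V) {f : RatField} {P Q : RR} (hQ : Q ≠ 0)
    (h : algebraMap RR RatField Q * f = algebraMap RR RatField P)
    (hv : ∀ p ∈ V, ev Q p * g p = ev P p) : Rep V f g := by
  intro P' Q' h' p hp
  have hcomm : Q' * P = Q * P' := by
    apply am_inj
    rw [map_mul, map_mul, ← h, ← h']
    ring
  have h1 : ∀ q ∈ V, ev Q' q * g q - ev P' q = 0 := by
    refine zero_of_dense hU hV (((hU.2.1 Q').continuousOn.mul hc).sub (hU.2.1 P').continuousOn)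
      hQ ?_
    intro q hq hne
    have h2 := hv q hq
    have h3 : ev Q' q * ev P q = ev Q q * ev P' q := by rw [← ev_mul, ← ev_mul, hcomm]
    have h4 : ev Q q * (ev Q' q * g q - ev P' q) = 0 := by
      rw [mul_sub, ← h3, ← h2]; ring
    exact (mul_eq_zero.1 h4).resolve_left hne
  exact sub_eq_zero.1 (h1 p hp)

lemma rep_const (hU : S_UNIQ) {V : Set (ℂ × ℂ)} (hV : IsOpen V) (c : ℂ) :
    Rep V (algebraMap RR RatField (MvPolynomial.C c)) (fun _ => c) :=
  rep_mk hU hV continuousOn_const (P := MvPolynomial.C c) (Q := 1) one_ne_zero (by simp)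
    (fun p _ => by rw [ev_one, ev_C, one_mul])

lemma rep_X0 (hU : S_UNIQ) {V : Set (ℂ × ℂ)} (hV : IsOpen V) :
    Rep V (algebraMap RR RatField (MvPolynomial.X 0)) (fun q => q.1) :=
  rep_mk hU hV continuous_fst.continuousOn (P := MvPolynomial.X 0) (Q := 1) one_ne_zero (by simp)
    (fun p _ => by rw [ev_one, ev_X0, one_mul])

lemma rep_X1 (hU : S_UNIQ) {V : Set (ℂ × ℂ)} (hV : IsOpen V) :
    Rep V (algebraMap RR RatField (MvPolynomial.X 1)) (fun q => q.2) :=
  rep_mk hU hV continuous_snd.continuousOn (P := MvPolynomial.X 1) (Q := 1) one_ne_zero (by simp)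
    (fun p _ => by rw [ev_one, ev_X1, one_mul])

lemma rep_add (hU : S_UNIQ) {V : Set (ℂ × ℂ)} (hV : IsOpen V) {f f' : RatField}
    {g g' : ℂ × ℂ → ℂ} (hc : ContinuousOn g V) (hc' : ContinuousOn g' V) (h : Rep V f g)
    (h' : Rep V f' g') : Rep V (f + f') (fun q => g q + g' q) := by
  obtain ⟨P, Q, hQ, hf⟩ := exists_frac f
  obtain ⟨P', Q', hQ', hf'⟩ := exists_frac f'
  refine rep_mk hU hV (hc.add hc') (P := Q' * P + Q * P') (Q := Q * Q') (mul_ne_zero hQ hQ') ?_ ?_
  · rw [map_add, map_mul, map_mul, map_mul, ← hf, ← hf']; ring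
  · intro p hp
    show ev (Q * Q') p * (g p + g' p) = ev (Q' * P + Q * P') p
    rw [ev_add, ev_mul, ev_mul, ev_mul, ← h P Q hf p hp, ← h' P' Q' hf' p hp]; ring

lemma rep_mul (hU : S_UNIQ) {V : Set (ℂ × ℂ)} (hV : IsOpen V) {f f' : RatField}
    {g g' : ℂ × ℂ → ℂ} (hc : ContinuousOn g V) (hc' : ContinuousOn g' V) (h : Rep V f g)
    (h' : Rep V f' g') : Rep V (f * f') (fun q => g q * g' q) := by
  obtain ⟨P, Q, hQ, hf⟩ := exists_frac f
  obtain ⟨P', Q', hQ', hf'⟩ := exists_frac f'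
  refine rep_mk hU hV (hc.mul hc') (P := P * P') (Q := Q * Q') (mul_ne_zero hQ hQ') ?_ ?_
  · rw [map_mul, map_mul, ← hf, ← hf']; ring
  · intro p hp
    show ev (Q * Q') p * (g p * g' p) = ev (P * P') p
    rw [ev_mul, ev_mul, ← h P Q hf p hp, ← h' P' Q' hf' p hp]; ring

lemma rep_unique (hU : S_UNIQ) {V : Set (ℂ × ℂ)} (hV : IsOpen V) (hne : V.Nonempty)
    {f f' : RatField} {g : ℂ × ℂ → ℂ} (h : Rep V f g) (h' : Rep V f' g) : f = f' := by
  obtain ⟨P, Q, hQ, hf⟩ := exists_frac f
  obtain ⟨P', Q', hQ', hf'⟩ := exists_frac f'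
  obtain ⟨p0, hp0⟩ := hne
  have h1 : Q' * P - Q * P' = 0 := by
    refine hU.1 _ p0 ?_
    filter_upwards [hV.mem_nhds hp0] with q hq
    rw [ev_sub, ev_mul, ev_mul, ← h P Q hf q hq, ← h' P' Q' hf' q hq]; ring
  have h2 : algebraMap RR RatField Q' * algebraMap RR RatField P =
      algebraMap RR RatField Q * algebraMap RR RatField P' := by
    rw [← map_mul, ← map_mul, sub_eq_zero.1 h1]
  rw [← hf, ← hf'] at h2
  have h3 : (algebraMap RR RatField Q * algebraMap RR RatField Q') * (f - f') = 0 := by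
    have : (algebraMap RR RatField Q * algebraMap RR RatField Q') * (f - f') =
        algebraMap RR RatField Q' * (algebraMap RR RatField Q * f) -
          algebraMap RR RatField Q * (algebraMap RR RatField Q' * f') := by ring
    rw [this, h2, sub_self]
  exact sub_eq_zero.1 ((mul_eq_zero.1 h3).resolve_left (mul_ne_zero (am_ne hQ) (am_ne hQ')))

/-- continuity of the values of a polynomial -/
lemma cont_ev (hU : S_UNIQ) {e : OpenPartialHomeomorph (ℂ × ℂ) (ℂ × ℂ)} (S : RR) :
    ContinuousOn (fun q => ev S (e q)) e.source :=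
  (hU.2.1 S).comp_continuousOn e.continuousOn

/-- the homomorphism given by `e` -/
lemma exists_hom (hU : S_UNIQ) (e : OpenPartialHomeomorph (ℂ × ℂ) (ℂ × ℂ))
    (hne : e.source.Nonempty) (hr : RatOn e e.source) :
    ∃ Φ : RatField →ₐ[ℂ] RatField, ∀ S : RR,
      Rep e.source (Φ (algebraMap RR RatField S)) (fun q => ev S (e q)) := by
  obtain ⟨P1, Q1, P2, Q2, hQ1, hQ2, hr⟩ := hr
  let v : Fin 2 → RatField := ![algebraMap RR RatField P1 / algebraMap RR RatField Q1,
    algebraMap RR RatField P2 / algebraMap RR RatField Q2]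
  let φ : RR →ₐ[ℂ] RatField := MvPolynomial.aeval v
  have hc1 : ContinuousOn (fun q => (e q).1) e.source :=
    continuous_fst.comp_continuousOn e.continuousOn
  have hc2 : ContinuousOn (fun q => (e q).2) e.source :=
    continuous_snd.comp_continuousOn e.continuousOn
  have h0 : Rep e.source (v 0) (fun q => (e q).1) := by
    refine rep_mk hU e.open_source hc1 hQ1 ?_ fun p hp => (hr p hp).1
    exact mul_div_cancel₀ _ (am_ne hQ1)
  have h1 : Rep e.source (v 1) (fun q => (e q).2) := by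
    refine rep_mk hU e.open_source hc2 hQ2 ?_ fun p hp => (hr p hp).2
    exact mul_div_cancel₀ _ (am_ne hQ2)
  have hφ : ∀ S : RR, Rep e.source (φ S) (fun q => ev S (e q)) := by
    intro S
    induction S using MvPolynomial.induction_on with
    | C c =>
      have h2 : φ (MvPolynomial.C c) = algebraMap RR RatField (MvPolynomial.C c) := by
        rw [MvPolynomial.aeval_C, IsScalarTower.algebraMap_apply ℂ RR RatField]
        rfl
      rw [h2]
      have h3 : (fun q => ev (MvPolynomial.C c : RR) (e q)) = fun _ => c := by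
        funext q; exact ev_C c _
      rw [h3]
      exact rep_const hU e.open_source c
    | add p q hp hq =>
      have h3 : (fun z => ev (p + q) (e z)) = fun z => ev p (e z) + ev q (e z) := by
        funext z; exact ev_add p q _
      rw [map_add, h3]
      exact rep_add hU e.open_source (cont_ev hU p) (cont_ev hU q) hp hq
    | mul_X p i hp =>
      have h3 : (fun z => ev (p * MvPolynomial.X i) (e z)) =
          fun z => ev p (e z) * ev (MvPolynomial.X i) (e z) := by
        funext z; exact ev_mul p _ _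
      have h4 : Rep e.source (φ (MvPolynomial.X i)) (fun q => ev (MvPolynomial.X i) (e q)) := by
        have h5 : φ (MvPolynomial.X i) = v i := MvPolynomial.aeval_X v i
        rw [h5]
        fin_cases i
        · have h6 : (fun q => ev (MvPolynomial.X 0 : RR) (e q)) = fun q => (e q).1 := by
            funext q; exact ev_X0 _
          exact h6 ▸ h0
        · have h6 : (fun q => ev (MvPolynomial.X 1 : RR) (e q)) = fun q => (e q).2 := by
            funext q; exact ev_X1 _
          exact h6 ▸ h1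
      rw [map_mul, h3]
      exact rep_mul hU e.open_source (cont_ev hU p) (cont_ev hU _) hp h4
  have hinj : Function.Injective φ := by
    rw [injective_iff_map_eq_zero]
    intro S hS
    obtain ⟨p0, hp0⟩ := hne
    refine hU.1 S (e p0) ?_
    filter_upwards [e.open_target.mem_nhds (e.map_source hp0)] with y hy
    have h2 : ev (1 : RR) (e.symm y) * ev S (e (e.symm y)) = ev (0 : RR) (e.symm y) :=
      hφ S 0 1 (by rw [hS, mul_zero, map_zero]) (e.symm y) (e.map_target hy)
    rw [ev_one, ev_zero, one_mul, e.right_inv hy] at h2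
    exact h2
  refine ⟨IsFractionRing.liftAlgHom hinj, fun S => ?_⟩
  have h2 : (IsFractionRing.liftAlgHom hinj : RatField →ₐ[ℂ] RatField)
      (algebraMap RR RatField S) = φ S := IsFractionRing.lift_algebraMap hinj S
  rw [h2]
  exact hφ S

lemma transfer (hU : S_UNIQ) (e : OpenPartialHomeomorph (ℂ × ℂ) (ℂ × ℂ))
    {Φ : RatField →ₐ[ℂ] RatField} (hΦ : ∀ S : RR,
      Rep e.source (Φ (algebraMap RR RatField S)) (fun q => ev S (e q)))
    {f : RatField} {g : ℂ × ℂ → ℂ} (hc : ContinuousOn g e.target) (h : Rep e.target f g) :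
    Rep e.source (Φ f) (fun q => g (e q)) := by
  obtain ⟨P, Q, hQ, hf⟩ := exists_frac f
  have hcg : ContinuousOn (fun q => g (e q)) e.source :=
    hc.comp e.continuousOn fun q hq => e.map_source hq
  have hval : ∀ q ∈ e.source, ev Q (e q) * g (e q) = ev P (e q) := fun q hq =>
    h P Q hf (e q) (e.map_source hq)
  obtain ⟨C, D, hD, hCD⟩ := exists_frac (Φ (algebraMap RR RatField Q))
  obtain ⟨C', D', hD', hCD'⟩ := exists_frac (Φ (algebraMap RR RatField P))
  obtain ⟨A, B, hB, hAB⟩ := exists_frac (Φ f)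
  have hΦQ : Φ (algebraMap RR RatField Q) ≠ 0 := by
    rw [Ne, map_eq_zero]
    exact am_ne hQ
  have hC : C ≠ 0 := by
    intro h0
    rw [h0, map_zero] at hCD
    exact (mul_ne_zero (am_ne hD) hΦQ) hCD
  have hmul : Φ (algebraMap RR RatField Q) * Φ f = Φ (algebraMap RR RatField P) := by
    rw [← map_mul, hf]
  have hpoly : C * A * D' = C' * D * B := by
    apply am_inj
    simp only [map_mul]
    rw [← hCD, ← hAB, ← hCD', ← hmul]
    ring
  refine rep_mk hU e.open_source hcg hB hAB ?_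
  have h1 : ∀ q ∈ e.source, ev B q * g (e q) - ev A q = 0 := by
    refine zero_of_dense hU e.open_source
      (((hU.2.1 B).continuousOn.mul hcg).sub (hU.2.1 A).continuousOn)
      (mul_ne_zero hC hD') ?_
    intro q hq hne
    rw [ev_mul] at hne
    have e1 : ev D q * ev Q (e q) = ev C q := hΦ Q C D hCD q hq
    have e2 : ev D' q * ev P (e q) = ev C' q := hΦ P C' D' hCD' q hq
    have e3 : ev C q * ev A q * ev D' q = ev C' q * ev D q * ev B q := by
      rw [← ev_mul, ← ev_mul, ← ev_mul, ← ev_mul, hpoly]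
    have e4 : (ev C q * ev D' q) * (ev B q * g (e q) - ev A q) = 0 := by
      have : (ev C q * ev D' q) * (ev B q * g (e q) - ev A q) =
          ev C q * ev D' q * ev B q * g (e q) - ev C q * ev A q * ev D' q := by ring
      rw [this, e3, ← e1, ← e2, ← hval q hq]
      ring
    exact (mul_eq_zero.1 e4).resolve_left hne
  intro p hp
  exact sub_eq_zero.1 (h1 p hp)

lemma hom_ext {Φ Ψ : RatField →ₐ[ℂ] RatField}
    (h0 : Φ (algebraMap RR RatField (MvPolynomial.X 0)) =
      Ψ (algebraMap RR RatField (MvPolynomial.X 0)))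
    (h1 : Φ (algebraMap RR RatField (MvPolynomial.X 1)) =
      Ψ (algebraMap RR RatField (MvPolynomial.X 1))) : Φ = Ψ := by
  have hR : Φ.comp (IsScalarTower.toAlgHom ℂ RR RatField) =
      Ψ.comp (IsScalarTower.toAlgHom ℂ RR RatField) := by
    refine MvPolynomial.algHom_ext fun i => ?_
    fin_cases i
    · exact h0
    · exact h1
  have hS : ∀ S : RR, Φ (algebraMap RR RatField S) = Ψ (algebraMap RR RatField S) := fun S =>
    DFunLike.congr_fun hR S
  refine AlgHom.ext fun f => ?_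
  obtain ⟨P, Q, hQ, hf⟩ := exists_frac f
  have h2 : Φ (algebraMap RR RatField Q) * Φ f = Φ (algebraMap RR RatField P) := by
    rw [← map_mul, hf]
  have h3 : Ψ (algebraMap RR RatField Q) * Ψ f = Ψ (algebraMap RR RatField P) := by
    rw [← map_mul, hf]
  rw [hS, hS, ← h3] at h2
  refine mul_left_cancel₀ ?_ h2
  rw [Ne, map_eq_zero]
  exact am_ne hQ

lemma comp_id (hU : S_UNIQ) (e : OpenPartialHomeomorph (ℂ × ℂ) (ℂ × ℂ))
    (hne : e.source.Nonempty) {Φ Ψ : RatField →ₐ[ℂ] RatField}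
    (hΦ : ∀ S : RR, Rep e.source (Φ (algebraMap RR RatField S)) (fun q => ev S (e q)))
    (hΨ : ∀ S : RR, Rep e.target (Ψ (algebraMap RR RatField S)) (fun q => ev S (e.symm q))) :
    Φ.comp Ψ = AlgHom.id ℂ RatField := by
  have hc : ∀ S : RR, ContinuousOn (fun q => ev S (e.symm q)) e.target := fun S =>
    cont_ev hU (e := e.symm) S
  have hX : ∀ (S : RR) (g : ℂ × ℂ → ℂ), (∀ q, ev S q = g q) →
      Rep e.source (algebraMap RR RatField S) g →
      Φ (Ψ (algebraMap RR RatField S)) = algebraMap RR RatField S := by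
    intro S g hg hS
    have h1 := transfer hU e hΦ (hc S) (hΨ S)
    have h2 : Rep e.source (Φ (Ψ (algebraMap RR RatField S))) g := by
      intro P Q hPQ p hp
      have h3 := h1 P Q hPQ p hp
      simp only [e.left_inv hp] at h3
      rw [← hg p]
      exact h3
    exact rep_unique hU e.open_source hne h2 hS
  refine hom_ext ?_ ?_
  · exact hX _ (fun q => q.1) ev_X0 (rep_X0 hU e.open_source)
  · exact hX _ (fun q => q.2) ev_X1 (rep_X1 hU e.open_source)

theorem t_AUT (h1 : S_UNIQ) : S_AUT := by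
  intro e hne hr hr'
  have hne' : e.target.Nonempty := by
    obtain ⟨p, hp⟩ := hne
    exact ⟨e p, e.map_source hp⟩
  obtain ⟨Φ, hΦ⟩ := exists_hom h1 e hne hr
  obtain ⟨Ψ, hΨ⟩ := exists_hom h1 e.symm hne' hr'
  have c1 : Φ.comp Ψ = AlgHom.id ℂ RatField := comp_id h1 e hne hΦ hΨ
  have c2 : Ψ.comp Φ = AlgHom.id ℂ RatField := comp_id h1 e.symm hne' hΨ hΦ
  refine ⟨AlgEquiv.ofAlgHom Φ Ψ c1 c2, fun P Q => ⟨fun h p hp => ?_, fun h p hp => ?_⟩⟩
  · have h2 : ev Q p * ev (MvPolynomial.X 0 : RR) (e p) = ev P p :=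
      hΦ (MvPolynomial.X 0) P Q h p hp
    rw [ev_X0] at h2
    exact h2
  · have h2 : ev Q p * ev (MvPolynomial.X 1 : RR) (e p) = ev P p :=
      hΦ (MvPolynomial.X 1) P Q h p hp
    rw [ev_X1] at h2
    exact h2

end

end Pool.Agent.H897.KT
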