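import Mathlib
import Pool.Agent.H892.KT.Stm

/-!
# Inverse of a birational germ
-/

set_option autoImplicit false

open Filter Topology Set

namespace Pool.Agent.H348.KT

open Pool.Agent.H892.KT

theorem t_BIRINV : S_BIRINV := by
  rintro τ p ⟨e, hp, he, hr, hr'⟩
  have hτp : τ p = e p := he.self_of_nhds
  have hsp : e.symm (e p) = p := e.left_inv hp
  refine ⟨e.symm, ?_, ?_, ?_, ?_⟩
  · rw [hτp]
    refine ⟨e.symm, e.map_source hp, Eventually.of_forall fun _ => rfl, hr', ?_⟩
    rw [OpenPartialHomeomorph.symm_symm, hsp]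
    exact hr
  · rw [hτp, hsp]
  · filter_upwards [he, e.open_source.mem_nhds hp] with q hq hq'
    rw [hq, e.left_inv hq']
  · exact (e.continuousAt hp).congr (he.mono fun q hq => hq.symm)

end Pool.Agent.H348.KT
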