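import Mathlib
import Pool.Agent.H892.KT.Stm

/-!
# Kato surfaces: the charts
-/

set_option autoImplicit false

open Filter Topology Set
open scoped Manifold ContDiff

namespace Pool.Agent.H922.KT

open Pool.Agent.H892.KT

theorem bB_div {u : ℂ × ℂ} (hu : u.1 ≠ 0) : ((bB u).1, (bB u).2 / (bB u).1) = u := by
  refine Prod.ext rfl ?_
  change u.1 * u.2 / u.1 = u.2
  field_simp

theorem div_bB {y : ℂ × ℂ} (hy : y.1 ≠ 0) : bB (y.1, y.2 / y.1) = y := by
  refine Prod.ext rfl ?_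
  change y.1 * (y.2 / y.1) = y.2
  field_simp

theorem t_CHART (h1 : S_MK) (h2 : S_PHI) (h3 : S_HATB) (h4 : S_BIRBASIC) : S_CHART := by
  intro n K D X _ _ _ π hπ r hr
  have hid := h4.2.2.2.2
  have hinv := h4.2.2.1
  cases r with
  | P i y =>
    obtain ⟨hyV, hy0⟩ : y ∈ D.V i ∧ y ≠ 0 := hr
    obtain ⟨A, hA⟩ := h2 n K D i y (D.small i y hyV)
    have hO : IsOpen (D.V i \ {0}) := (D.isOpen_V i).sdiff isClosed_singleton
    have hdiff : DifferentiableOn ℂ (fun y => y + D.w i y) (D.V i \ {0}) := by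
      refine differentiableOn_id.add ((D.w_diff i).mono ?_)
      intro y' hy'
      rw [mem_ball_zero_iff]
      exact D.small i y' hy'.1
    obtain ⟨e, O', hO', hyO', hsub, hat, hval, hsrc⟩ := h1 X (fun y => π (.P i y)) y
      (fun y => y + D.w i y) (D.V i \ {0}) A (hπ.locP i ⟨y, D.subU i hyV, hy0⟩) hO ⟨hyV, hy0⟩
      hdiff hA
    have hev : ∀ y' ∈ O', ∀ᶠ r1 in nh (Pt.P i y'), e (π r1) = D.ch r1 := by
      intro y' hy'
      change ∀ᶠ r1 in Filter.map (Pt.P i) (𝓝 y'), e (π r1) = D.ch r1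
      rw [eventually_map]
      filter_upwards [hO'.mem_nhds hy'] with y'' hy''
      exact (hval y'' hy'').2
    refine ⟨e, hat, (hval y hyO').1, hev y hyO', ?_⟩
    intro z hz
    obtain ⟨y', hy', rfl⟩ := hsrc z hz
    refine ⟨.P i y', (hsub hy' : y' ∈ D.V i ∧ y' ∉ ({0} : Set (ℂ × ℂ))), rfl, id, hid _, ?_⟩
    exact hev y' hy'
  | R i z0 =>
    obtain ⟨t, rfl⟩ : ∃ t, z0 = (0, t) := ⟨z0.2, Prod.ext hr rfl⟩
    obtain ⟨O, hO, htO, hdiff, ⟨A, hA⟩, hbV, -, hne⟩ := h3 n K D i t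
    obtain ⟨e, O', hO', hyO', hsub, hat, hval, hsrc⟩ := h1 X (fun z => π (.R i z)) (0, t)
      (hatB (D.w i)) O A (hπ.locR i ⟨(0, t), D.subU i (hbV _ htO)⟩) hO htO hdiff hA
    have hev : ∀ z' ∈ O', ∀ᶠ r1 in nh (Pt.R i z'), e (π r1) = D.ch r1 := by
      intro z' hz'
      change ∀ᶠ r1 in Filter.map (Pt.R i) (𝓝 z'), e (π r1) = D.ch r1
      rw [eventually_map]
      filter_upwards [hO'.mem_nhds hz'] with z'' hz''
      exact (hval z'' hz'').2
    have hglue : ∀ z' ∈ O', z'.1 ≠ 0 → bB z' ∈ D.V i ∧ bB z' ≠ 0 ∧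
        π (.P i (bB z')) = π (.R i z') := by
      intro z' hz' hz1
      have hV := hbV z' (hsub hz')
      have hb0 : bB z' ≠ 0 := fun h => hz1 (congrArg Prod.fst h)
      refine ⟨hV, hb0, ?_⟩
      have hR : Pt.R i z' ∈ K.dom := D.subU i hV
      have hP : Pt.P i (bB z') ∈ K.dom := ⟨D.subU i hV, hb0⟩
      exact ((hπ.fibre _ hR _ hP).2
        (Relation.EqvGen.rel _ _ (KatoData.Glue.blow i z' hz1 (D.subU i hV)))).symm
    refine ⟨e, hat, (hval _ hyO').1, hev _ hyO', ?_⟩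
    intro z hz
    obtain ⟨z', hz', rfl⟩ := hsrc z hz
    by_cases hz1 : z'.1 = 0
    · exact ⟨.R i z', hz1, rfl, id, hid _, hev z' hz'⟩
    · obtain ⟨hV, hb0, hπe⟩ := hglue z' hz' hz1
      refine ⟨.P i (bB z'), ⟨hV, hb0⟩, hπe, fun q => (q.1, q.2 / q.1), ?_, ?_⟩
      · refine hinv _ ?_
        change (bB z' + D.w i (bB z')).1 ≠ 0
        rw [← (hne z' (hsub hz') hz1).2]
        exact (hne z' (hsub hz') hz1).1
      · change ∀ᶠ r1 in Filter.map (Pt.P i) (𝓝 (bB z')),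
          e (π r1) = ((D.ch r1).1, (D.ch r1).2 / (D.ch r1).1)
        rw [eventually_map]
        have hb1 : (bB z').1 ≠ 0 := hz1
        have hcont : ContinuousAt (fun y : ℂ × ℂ => (y.1, y.2 / y.1)) (bB z') :=
          continuousAt_fst.prodMk (continuousAt_snd.div continuousAt_fst hb1)
        have hmem : O' ∈ 𝓝 ((fun y : ℂ × ℂ => (y.1, y.2 / y.1)) (bB z')) := by
          change O' ∈ 𝓝 ((bB z').1, (bB z').2 / (bB z').1)
          rw [bB_div hz1]
          exact hO'.mem_nhds hz'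
        have hne1 : ∀ᶠ y : ℂ × ℂ in 𝓝 (bB z'), y.1 ≠ 0 :=
          continuousAt_fst.eventually_ne hb1
        filter_upwards [hcont hmem, hne1] with y hy hy1
        obtain ⟨u, hu⟩ : ∃ u : ℂ × ℂ, u = (y.1, y.2 / y.1) := ⟨_, rfl⟩
        have huO : u ∈ O' := by
          rw [hu]
          exact hy
        have hub : bB u = y := by
          rw [hu]
          exact div_bB hy1
        have hu1 : u.1 ≠ 0 := by
          rw [hu]
          exact hy1
        obtain ⟨-, -, h5⟩ := hglue u huO hu1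
        obtain ⟨h6, h7⟩ := hne u (hsub huO) hu1
        have h8 := (hval u huO).2
        rw [hub] at h5 h7
        change e (π (.P i y)) = ((y + D.w i y).1, (y + D.w i y).2 / (y + D.w i y).1)
        rw [h5, ← h7, bB_div h6]
        exact h8

end Pool.Agent.H922.KT
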