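import Mathlib
import Pool.Agent.H892.KT.Stm
import Pool.Agent.H892.KT.W.Osgood540

set_option autoImplicit false

open Filter Topology Set

namespace Pool.Agent.H668.KT

open Pool.Agent.H892.KT

theorem t_INVD : S_INVD := by
  intro n K i
  have h2 : Module.finrank ℂ (ℂ × ℂ) = 2 := by
    rw [Module.finrank_prod, Module.finrank_self]
  have hinj : Function.Injective (fderiv ℂ (K.σ i) 0) :=
    Pool.Agent.H892.KT.L540.osgood 2 (ℂ × ℂ) (ℂ × ℂ) h2 h2 (K.U i) (K.isOpen_U i)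
      (K.σ i) (K.diff i) (K.inj i) 0 (K.zero_mem i)
  have hinj' : Function.Injective (fderiv ℂ (K.σ i) 0 : (ℂ × ℂ) →ₗ[ℂ] (ℂ × ℂ)) := hinj
  let e : (ℂ × ℂ) ≃ₗ[ℂ] (ℂ × ℂ) := LinearEquiv.ofInjectiveEndo _ hinj'
  refine ⟨e.toContinuousLinearEquiv, ?_⟩
  ext <;> rfl

end Pool.Agent.H668.KT
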