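import Mathlib
import Pool.Agent.H892.KT.Stm
import Pool.Agent.H892.KT.W.Holo540

/-!
# S_INVLIP of project KT (helper892), by helper722: the inverse is Lipschitz near the origin
-/

set_option autoImplicit false

open Metric

namespace Pool.Agent.H722.KT

open Pool.Agent.H892.KT

theorem t_INVLIP : S_INVLIP := by
  intro e h0 he0 hd
  have ht : (0 : ℂ × ℂ) ∈ e.target := by
    have h := e.map_source h0
    rwa [he0] at h
  obtain ⟨R, hR, M, hM0, hsub, hM⟩ :=
    Pool.Agent.H892.KT.L540.exists_bound e.open_target hd ht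
  refine ⟨max 1 (4 * M / R), R / 4, le_max_left _ _, by positivity,
    (ball_subset_ball (by linarith)).trans hsub, fun z hz z' hz' => ?_⟩
  have h1 : z' ∈ ball (0 : ℂ × ℂ) (R / 2) := ball_subset_ball (by linarith) hz'
  have h2 : z ∈ ball z' (R / 2) := by
    rw [mem_ball] at hz hz' ⊢
    calc dist z z' ≤ dist z 0 + dist z' 0 := dist_triangle_right _ _ _
      _ < R / 2 := by linarith
  refine (Pool.Agent.H892.KT.L540.lipschitz_half (hd.mono hsub) hM h1 h2).trans ?_
  exact mul_le_mul_of_nonneg_right (le_max_right _ _) (norm_nonneg _)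

end Pool.Agent.H722.KT
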