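import Mathlib
import Pool.Agent.H892.KT.Stm
import Pool.Agent.H892.KT.W.Holo540

/-!
# Limits of geometrically convergent sequences of holomorphic maps on open subsets of `ℂ × ℂ`
-/

set_option autoImplicit false

open Filter Topology Set

namespace Pool.Agent.H828.KT

open Pool.Agent.H892.KT

/-- geometric tail bound -/
theorem geo_tail {E : Type*} [NormedAddCommGroup E] (a : ℕ → E) (M : ℝ) (hM : 0 ≤ M)
    (h : ∀ k, ‖a (k + 1) - a k‖ ≤ (1 / 4 : ℝ) ^ (k + 1) * M) (k m : ℕ) :
    ‖a (k + m) - a k‖ ≤ ((1 / 4 : ℝ) ^ k - (1 / 4 : ℝ) ^ (k + m)) * M := by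
  induction m with
  | zero => simp
  | succ m ih =>
    have h1 : a (k + (m + 1)) - a k = (a (k + m + 1) - a (k + m)) + (a (k + m) - a k) := by
      rw [← add_assoc]; abel
    rw [h1]
    have h2 := norm_add_le (a (k + m + 1) - a (k + m)) (a (k + m) - a k)
    have h3 := h (k + m)
    have h4 : (0 : ℝ) ≤ (1 / 4 : ℝ) ^ (k + m) * M := by positivity
    have h5 : (1 / 4 : ℝ) ^ (k + (m + 1)) = (1 / 4 : ℝ) ^ (k + m) * (1 / 4) := by
      rw [← add_assoc, pow_succ]
    have h6 : (1 / 4 : ℝ) ^ (k + m + 1) = (1 / 4 : ℝ) ^ (k + m) * (1 / 4) := by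
      rw [pow_succ]
    rw [h6] at h3
    rw [h5]
    nlinarith

theorem t_LIM : S_LIM := by
  intro ι V W u hV hW h0 hd hu
  have hW0 : ∀ i, ∀ y ∈ V i, 0 ≤ W i y := by
    intro i y hy
    have h1 := hu 0 i y hy
    have h2 := norm_nonneg (u (0 + 1) i y - u 0 i y)
    rw [zero_add, pow_one] at h1
    rw [zero_add] at h2
    linarith
  have htail : ∀ i, ∀ y ∈ V i, ∀ k m,
      ‖u (k + m) i y - u k i y‖ ≤ (1 / 4 : ℝ) ^ k * W i y := by
    intro i y hy k m
    have h1 := geo_tail (fun k => u k i y) (W i y) (hW0 i y hy) (fun k => hu k i y hy) k m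
    refine h1.trans ?_
    have h2 : (0 : ℝ) ≤ (1 / 4 : ℝ) ^ (k + m) := by positivity
    exact mul_le_mul_of_nonneg_right (by linarith) (hW0 i y hy)
  have hcau : ∀ i, ∀ y ∈ V i, CauchySeq (fun k => u k i y) := by
    intro i y hy
    refine cauchySeq_of_le_geometric (1 / 4 : ℝ) (W i y) (by norm_num) ?_
    intro k
    rw [dist_comm, dist_eq_norm]
    refine (hu k i y hy).trans ?_
    have h1 := hW0 i y hy
    have h2 : (0 : ℝ) ≤ (1 / 4 : ℝ) ^ k := by positivity
    rw [pow_succ]
    nlinarith [mul_nonneg h2 h1]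
  classical
  have hex : ∀ i, ∀ y ∈ V i, ∃ z, Tendsto (fun k => u k i y) atTop (𝓝 z) := fun i y hy =>
    cauchySeq_tendsto_of_complete (hcau i y hy)
  choose! w hw using hex
  have hlim : ∀ k i, ∀ y ∈ V i, ‖w i y - u k i y‖ ≤ (1 / 4 : ℝ) ^ k * W i y := by
    intro k i y hy
    have h1 : Tendsto (fun m => ‖u (k + m) i y - u k i y‖) atTop (𝓝 ‖w i y - u k i y‖) := by
      have h2 : Tendsto (fun m => u (k + m) i y) atTop (𝓝 (w i y)) := by
        have h3 := (tendsto_add_atTop_iff_nat k).2 (hw i y hy)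
        refine h3.congr fun m => ?_
        rw [add_comm]
      exact (h2.sub_const _).norm
    exact le_of_tendsto h1 (Eventually.of_forall fun m => htail i y hy k m)
  refine ⟨w, ?_, hlim, ?_⟩
  · intro i x hx
    obtain ⟨R, hR, hball⟩ := Metric.isOpen_iff.1 (hV i) x hx
    have hun : TendstoUniformlyOn (fun k => u k i) (w i) atTop (Metric.ball x R) := by
      rw [Metric.tendstoUniformlyOn_iff]
      intro ε hε
      have h1 : Tendsto (fun k : ℕ => (1 / 4 : ℝ) ^ k) atTop (𝓝 0) :=
        tendsto_pow_atTop_nhds_zero_of_lt_one (by norm_num) (by norm_num)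
      filter_upwards [h1.eventually (gt_mem_nhds hε)] with k hk y hy
      rw [dist_eq_norm]
      have h2 := hlim k i y (hball hy)
      have h3 := hW i y (hball hy)
      have h4 : (0 : ℝ) ≤ (1 / 4 : ℝ) ^ k := by positivity
      calc ‖w i y - u k i y‖ ≤ (1 / 4 : ℝ) ^ k * W i y := h2
        _ ≤ (1 / 4 : ℝ) ^ k * 1 := mul_le_mul_of_nonneg_left h3 h4
        _ < ε := by rw [mul_one]; exact hk
    have h5 := Pool.Agent.H892.KT.L540.differentiableOn_of_uniform_limit (c := x) (R := R)
      (f := fun k => u k i) (g := w i) (fun n => (hd n i).mono hball) hun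
    exact (h5.differentiableAt (Metric.isOpen_ball.mem_nhds
      (Metric.mem_ball_self (by linarith)))).differentiableWithinAt
  · intro i y hy
    have h1 := hlim 0 i y hy
    rw [h0, sub_zero, pow_zero, one_mul] at h1
    exact h1

end Pool.Agent.H828.KT
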