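import Mathlib
import Pool.Agent.H892.KT.Stm

/-!
# Local biholomorphisms give charts
-/

set_option autoImplicit false

open Filter Topology Set
open scoped Manifold ContDiff

namespace Pool.Agent.H924.KT

open Pool.Agent.H892.KT

theorem t_MK (hANA : S_ANA) : S_MK := by
  intro X _ _ _ q y φ O A hq hO hy hφ hA
  obtain ⟨Φ, hyΦ, hEq⟩ := hq
  have han : ∀ x ∈ O, AnalyticAt ℂ φ x := hANA O φ hO hφ
  have hs : HasStrictFDerivAt φ (A : ℂ × ℂ →L[ℂ] ℂ × ℂ) y := by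
    rw [← hA]
    exact (han y hy).hasStrictFDerivAt
  obtain ⟨e1, he1, hy1⟩ : ∃ e1 : OpenPartialHomeomorph (ℂ × ℂ) (ℂ × ℂ), (⇑e1 = φ) ∧
      y ∈ e1.source :=
    ⟨hs.toOpenPartialHomeomorph φ, hs.toOpenPartialHomeomorph_coe,
      hs.mem_toOpenPartialHomeomorph_source⟩
  have hsymm : AnalyticAt ℂ e1.symm (e1 y) :=
    e1.analyticAt_symm' hy1 (by rw [he1]; exact han y hy) (by rw [he1]; exact hA)
  obtain ⟨T, hTdef⟩ : ∃ T : Set (ℂ × ℂ), T = {z | AnalyticAt ℂ e1.symm z} := ⟨_, rfl⟩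
  have hT : IsOpen T := by
    rw [hTdef]
    exact isOpen_analyticAt ℂ e1.symm
  have hTmem : ∀ z ∈ T, AnalyticAt ℂ e1.symm z := by
    intro z hz
    rw [hTdef] at hz
    exact hz
  obtain ⟨O', hO'def⟩ : ∃ O' : Set (ℂ × ℂ), O' = (e1.source ∩ e1 ⁻¹' T) ∩ (O ∩ Φ.source) :=
    ⟨_, rfl⟩
  have hO' : IsOpen O' := by
    rw [hO'def]
    exact (e1.isOpen_inter_preimage hT).inter (hO.inter Φ.open_source)
  have hmem : ∀ z ∈ O', z ∈ e1.source ∧ e1 z ∈ T ∧ z ∈ O ∧ z ∈ Φ.source := by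
    intro z hz
    rw [hO'def] at hz
    exact ⟨hz.1.1, hz.1.2, hz.2.1, hz.2.2⟩
  have hyO' : y ∈ O' := by
    rw [hO'def]
    refine ⟨⟨hy1, ?_⟩, hy, hyΦ⟩
    show e1 y ∈ T
    rw [hTdef]
    exact hsymm
  obtain ⟨Ψ, hΨ⟩ : ∃ Ψ : OpenPartialHomeomorph (ℂ × ℂ) X, Ψ = Φ.toOpenPartialHomeomorph := ⟨_, rfl⟩
  have hΨs : Ψ.source = Φ.source := by rw [hΨ]; rfl
  have hΨc : ContMDiffOn 𝓘(ℂ, ℂ × ℂ) 𝓘(ℂ, ℂ × ℂ) ω Ψ Ψ.source := by
    rw [hΨ]
    exact Φ.contMDiffOn_toFun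
  have hΨi : ContMDiffOn 𝓘(ℂ, ℂ × ℂ) 𝓘(ℂ, ℂ × ℂ) ω Ψ.symm Ψ.target := by
    rw [hΨ]
    exact Φ.contMDiffOn_invFun
  have hqΨ : ∀ z ∈ Ψ.source, q z = Ψ z := by
    intro z hz
    rw [hΨ] at hz ⊢
    exact hEq hz
  obtain ⟨e, he⟩ : ∃ e : OpenPartialHomeomorph X (ℂ × ℂ),
    e = (Ψ.restrOpen O' hO').symm.trans (e1.restrOpen O' hO') := ⟨_, rfl⟩
  have hsrc : ∀ x, x ∈ e.source ↔ x ∈ Ψ.target ∧ Ψ.symm x ∈ O' := by
    intro x
    rw [he]
    constructor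
    · intro hx
      have h1 : x ∈ (Ψ.restrOpen O' hO').target := hx.1
      have h2 : (Ψ.restrOpen O' hO').symm x ∈ (Ψ.restrOpen O' hO').source :=
        (Ψ.restrOpen O' hO').map_target h1
      have h3 : (Ψ.restrOpen O' hO') ((Ψ.restrOpen O' hO').symm x) = x :=
        (Ψ.restrOpen O' hO').right_inv h1
      have h4 : Ψ.symm x ∈ Ψ.source ∩ O' := h2
      have h5 : Ψ (Ψ.symm x) = x := h3
      refine ⟨?_, h4.2⟩
      rw [← h5]
      exact Ψ.map_source h4.1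
    · rintro ⟨h1, h2⟩
      have h3 : Ψ.symm x ∈ (Ψ.restrOpen O' hO').source := ⟨Ψ.map_target h1, h2⟩
      have h4 : (Ψ.restrOpen O' hO') (Ψ.symm x) = x := Ψ.right_inv h1
      refine ⟨?_, ?_⟩
      · show x ∈ (Ψ.restrOpen O' hO').target
        rw [← h4]
        exact (Ψ.restrOpen O' hO').map_source h3
      · show Ψ.symm x ∈ e1.source ∩ O'
        exact ⟨(hmem _ h2).1, h2⟩
  have hfun : ∀ x, e x = φ (Ψ.symm x) := by
    intro x
    rw [he, ← he1]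
    rfl
  have hsym : ∀ z, e.symm z = Ψ (e1.symm z) := by
    intro z
    rw [he]
    rfl
  have htgt : ∀ z ∈ e.target, z ∈ e1.target ∧ e1.symm z ∈ O' := by
    intro z hz
    have h1 := e.map_target hz
    have h2 := e.right_inv hz
    obtain ⟨h3, h4⟩ := (hsrc _).mp h1
    have h5 : e1 (Ψ.symm (e.symm z)) = z := by
      rw [he1, ← hfun]
      exact h2
    have h6 := (hmem _ h4).1
    refine ⟨?_, ?_⟩
    · rw [← h5]
      exact e1.map_source h6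
    · rw [← h5, e1.left_inv h6]
      exact h4
  refine ⟨e, O', hO', hyO', fun z hz => (hmem z hz).2.2.1, ?_, ?_, ?_⟩
  · apply OpenPartialHomeomorph.mem_maximalAtlas_of_contMDiffOn
    · have h1 : ContMDiffOn 𝓘(ℂ, ℂ × ℂ) 𝓘(ℂ, ℂ × ℂ) ω φ O := by
        rw [contMDiffOn_iff_contDiffOn]
        exact fun x hx => (han x hx).contDiffAt.contDiffWithinAt
      have h2 : ContMDiffOn 𝓘(ℂ, ℂ × ℂ) 𝓘(ℂ, ℂ × ℂ) ω (φ ∘ Ψ.symm) e.source :=
        h1.comp (hΨi.mono fun x hx => ((hsrc x).mp hx).1)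
          (fun x hx => (hmem _ ((hsrc x).mp hx).2).2.2.1)
      exact h2.congr fun x _ => hfun x
    · have h1 : ContMDiffOn 𝓘(ℂ, ℂ × ℂ) 𝓘(ℂ, ℂ × ℂ) ω e1.symm e.target := by
        rw [contMDiffOn_iff_contDiffOn]
        intro z hz
        obtain ⟨h1, h2⟩ := htgt z hz
        have h3 : AnalyticAt ℂ e1.symm z := by
          apply hTmem
          have h4 := (hmem _ h2).2.1
          rw [e1.right_inv h1] at h4
          exact h4
        exact h3.contDiffAt.contDiffWithinAt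
      have h2 : ContMDiffOn 𝓘(ℂ, ℂ × ℂ) 𝓘(ℂ, ℂ × ℂ) ω (Ψ ∘ e1.symm) e.target :=
        hΨc.comp h1 (fun z hz => by
          show e1.symm z ∈ Ψ.source
          rw [hΨs]
          exact (hmem _ (htgt z hz).2).2.2.2)
      exact h2.congr fun z _ => hsym z
  · intro y' hy'
    have h1 : y' ∈ Ψ.source := by
      rw [hΨs]
      exact (hmem _ hy').2.2.2
    have h2 : Ψ.symm (q y') = y' := by
      rw [hqΨ y' h1, Ψ.left_inv h1]
    refine ⟨(hsrc _).mpr ⟨?_, ?_⟩, ?_⟩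
    · rw [hqΨ y' h1]
      exact Ψ.map_source h1
    · rw [h2]
      exact hy'
    · rw [hfun, h2]
  · intro x hx
    obtain ⟨h1, h2⟩ := (hsrc x).mp hx
    refine ⟨Ψ.symm x, h2, ?_⟩
    rw [hqΨ _ (Ψ.map_target h1), Ψ.right_inv h1]

end Pool.Agent.H924.KT
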