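import Mathlib
import Pool.Agent.H892.KT.Stm
import Pool.Agent.H892.KT.W.Holo540

set_option autoImplicit false

open Filter Topology Set

namespace Pool.Agent.H782.KT

open Pool.Agent.H892.KT

theorem bA_diff : Differentiable ℂ bA :=
  (differentiable_fst.mul differentiable_snd).prodMk differentiable_snd

theorem orb_diff {n : ℕ} (K : KatoData n) (k : ℕ) :
    ∀ i, DifferentiableOn ℂ (fun y => orb K.σ k i y) (K.U i) := by
  induction k with
  | zero => intro i; exact differentiableOn_id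
  | succ k ih =>
    intro i
    have h1 : DifferentiableOn ℂ (fun y => bA (K.σ i y)) (K.U i) :=
      bA_diff.comp_differentiableOn (K.diff i)
    exact (ih (i + 1)).comp h1 (fun y hy => K.maps i y hy)

theorem orb_zero {n : ℕ} (K : KatoData n) (k : ℕ) : ∀ i, orb K.σ k i 0 = 0 := by
  induction k with
  | zero => intro i; rfl
  | succ k ih =>
    intro i
    show orb K.σ k (i + 1) (bA (K.σ i 0)) = 0
    have h1 : bA (K.σ i 0) = 0 := by
      rw [K.map_zero]
      unfold bA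
      simp
    rw [h1]
    exact ih (i + 1)

theorem t_QUAD (h1 : S_FD) (_h2 : S_ANA) : S_QUAD := by
  intro n _ K ⟨i0, hi0⟩
  have hn : 1 ≤ n := NeZero.one_le
  have key : ∀ i, ∃ C δ : ℝ, 0 < δ ∧ 0 ≤ C ∧ ∀ y : ℂ × ℂ, ‖y‖ < δ →
      y ∈ K.U i ∧ ‖orb K.σ (n + 1) i y‖ ≤ C * ‖y‖ ^ 2 := by
    intro i
    obtain ⟨A, hA, hAv⟩ := h1 n K n i
    have hA0 : A = 0 := by
      apply ContinuousLinearMap.ext
      intro v
      rw [hAv]
      have h2 : ∏ j ∈ Finset.range n, (fderiv ℂ (K.σ (i + 1 + (j : ZMod n))) 0 (0, 1)).2 = 0 := by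
        refine Finset.prod_eq_zero (i := (i0 - i - 1).val)
          (Finset.mem_range.mpr (ZMod.val_lt _)) ?_
        have h3 : i + 1 + (((i0 - i - 1).val : ℕ) : ZMod n) = i0 := by
          rw [ZMod.natCast_zmod_val]
          ring
        rw [h3]
        exact hi0
      rw [h2, mul_zero]
      rfl
    have hd : DifferentiableOn ℂ (fun y => orb K.σ (n + 1) i y) (K.U i) := orb_diff K (n + 1) i
    obtain ⟨R, hR, M, hM0, hsub, hM⟩ :=
      Pool.Agent.H892.KT.L540.exists_bound (K.isOpen_U i) hd (K.zero_mem i)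
    refine ⟨4 * M / R ^ 2, R, hR, by positivity, fun y hy => ?_⟩
    have hy' : y ∈ Metric.ball (0 : ℂ × ℂ) R := by
      rw [mem_ball_zero_iff]
      exact hy
    refine ⟨hsub hy', ?_⟩
    have h3 := Pool.Agent.H892.KT.L540.norm_sub_sub_fderiv_le hR (hd.mono hsub) hM hy'
    rw [hA.fderiv, hA0] at h3
    simp only [ContinuousLinearMap.zero_apply, sub_zero] at h3
    rw [orb_zero K (n + 1) i, sub_zero] at h3
    refine h3.trans (le_of_eq ?_)
    rw [div_pow]
    ring
  choose C δ hδ hC hb using key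
  obtain ⟨C0, hC0⟩ : ∃ C0 : ℝ, ∀ i, C i ≤ C0 := by
    obtain ⟨M, hM⟩ := (Set.finite_range C).bddAbove
    exact ⟨M, fun i => hM ⟨i, rfl⟩⟩
  obtain ⟨i1, hi1⟩ : ∃ i1, ∀ i, δ i1 ≤ δ i := Finite.exists_min δ
  refine ⟨n + 1, by omega, C0, δ i1, hδ i1, (hC 0).trans (hC0 0), fun i y hy => ?_⟩
  obtain ⟨h4, h5⟩ := hb i y (lt_of_lt_of_le hy (hi1 i))
  refine ⟨h4, h5.trans ?_⟩
  exact mul_le_mul_of_nonneg_right (hC0 i) (by positivity)

end Pool.Agent.H782.KT
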