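import Mathlib
import Pool.Agent.H892.KT.Stm

/-!
# Project KT: the reduced equivalence relation (RED2)
-/

set_option autoImplicit false

namespace Pool.Agent.H92.KT

open Pool.Agent.H892.KT

/-- `E r c`: the point `c` of the reduced domain is an end of the orbit of `r` -/
inductive E {n : ℕ} (K : KatoData n) (V : ZMod n → Set (ℂ × ℂ)) : Pt n → Pt n → Prop
  | base (i : ZMod n) (y : ℂ × ℂ) (hy : y ∈ V i) (h0 : y ≠ 0) : E K V (.P i y) (.P i y)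
  | step (i : ZMod n) (y : ℂ × ℂ) (c : Pt n) (hb : (K.σ i y).2 ≠ 0)
      (h : E K V (.P (i + 1) (bA (K.σ i y))) c) : E K V (.P i y) c
  | exc (i : ZMod n) (y : ℂ × ℂ) (ha : (K.σ i y).1 ≠ 0) (hb : (K.σ i y).2 = 0) :
      E K V (.P i y) (.R (i + 1) (0, (K.σ i y).1⁻¹))
  | rbase (i : ZMod n) (z : ℂ × ℂ) (hz : z.1 = 0) : E K V (.R i z) (.R i z)
  | rblow (i : ZMod n) (z : ℂ × ℂ) (c : Pt n) (hz : z.1 ≠ 0) (h : E K V (.P i (bB z)) c) :
      E K V (.R i z) c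

variable {n : ℕ} {K : KatoData n} {V : ZMod n → Set (ℂ × ℂ)}

theorem E_P {i : ZMod n} {y : ℂ × ℂ} {c : Pt n} (h : E K V (.P i y) c) :
    (y ∈ V i ∧ y ≠ 0 ∧ c = .P i y) ∨
    ((K.σ i y).2 ≠ 0 ∧ E K V (.P (i + 1) (bA (K.σ i y))) c) ∨
    ((K.σ i y).1 ≠ 0 ∧ (K.σ i y).2 = 0 ∧ c = .R (i + 1) (0, (K.σ i y).1⁻¹)) := by
  cases h with
  | base _ _ hy h0 => exact Or.inl ⟨hy, h0, rfl⟩
  | step _ _ _ hb h => exact Or.inr (Or.inl ⟨hb, h⟩)
  | exc _ _ ha hb => exact Or.inr (Or.inr ⟨ha, hb, rfl⟩)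

theorem E_R {i : ZMod n} {z : ℂ × ℂ} {c : Pt n} (h : E K V (.R i z) c) :
    (z.1 = 0 ∧ c = .R i z) ∨ (z.1 ≠ 0 ∧ E K V (.P i (bB z)) c) := by
  cases h with
  | rbase _ _ hz => exact Or.inl ⟨hz, rfl⟩
  | rblow _ _ _ hz h => exact Or.inr ⟨hz, h⟩

theorem bA_ne {p : ℂ × ℂ} (h : p.2 ≠ 0) : bA p ≠ 0 := by
  intro h1
  exact h (congrArg Prod.snd h1)

/-- ends of a point of the reduced domain are equivalent to it -/
theorem E_dom2 (hm : ∀ i, ∀ y ∈ V i, bA (K.σ i y) ∈ V (i + 1)) {r c : Pt n} (h : E K V r c) :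
    r ∈ dom2 V → Relation.EqvGen (Glue2 K V) r c := by
  induction h with
  | base i y hy h0 => exact fun _ => Relation.EqvGen.refl _
  | step i y c hb h ih =>
    rintro ⟨hy, -⟩
    exact Relation.EqvGen.trans _ _ _ (Relation.EqvGen.rel _ _ (Glue2.shift i y hy hb))
      (ih ⟨hm i y hy, bA_ne hb⟩)
  | exc i y ha hb =>
    rintro ⟨hy, -⟩
    exact Relation.EqvGen.rel _ _ (Glue2.exc i y hy ha hb)
  | rbase i z hz => exact fun _ => Relation.EqvGen.refl _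
  | rblow i z c hz h ih =>
    intro h1
    exact absurd h1 hz

/-- the points equivalent to an end of `r` -/
def Ret (K : KatoData n) (V : ZMod n → Set (ℂ × ℂ)) (r t : Pt n) : Prop :=
  ∃ c, E K V r c ∧ Relation.EqvGen (Glue2 K V) c t

theorem ret_shift (hm : ∀ i, ∀ y ∈ V i, bA (K.σ i y) ∈ V (i + 1)) {i : ZMod n} {y : ℂ × ℂ}
    (hb : (K.σ i y).2 ≠ 0) (t : Pt n) :
    Ret K V (.P i y) t ↔ Ret K V (.P (i + 1) (bA (K.σ i y))) t := by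
  constructor
  · rintro ⟨c, hc, ht⟩
    rcases E_P hc with ⟨hy, h0, rfl⟩ | ⟨-, h⟩ | ⟨-, h, -⟩
    · exact ⟨_, E.base _ _ (hm i y hy) (bA_ne hb), Relation.EqvGen.trans _ _ _
        (Relation.EqvGen.symm _ _ (Relation.EqvGen.rel _ _ (Glue2.shift i y hy hb))) ht⟩
    · exact ⟨c, h, ht⟩
    · exact absurd h hb
  · rintro ⟨c, hc, ht⟩
    exact ⟨c, E.step i y c hb hc, ht⟩

theorem ret_blow {i : ZMod n} {z : ℂ × ℂ} (hz : z.1 ≠ 0) (t : Pt n) :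
    Ret K V (.R i z) t ↔ Ret K V (.P i (bB z)) t := by
  constructor
  · rintro ⟨c, hc, ht⟩
    rcases E_R hc with ⟨h, -⟩ | ⟨-, h⟩
    · exact absurd h hz
    · exact ⟨c, h, ht⟩
  · rintro ⟨c, hc, ht⟩
    exact ⟨c, E.rblow i z c hz hc, ht⟩

theorem bB_bK {p : ℂ × ℂ} (ha : p.1 ≠ 0) : bB (bK p) = bA p := by
  show (p.1 * p.2, p.1 * p.2 * p.1⁻¹) = (p.1 * p.2, p.2)
  have h : p.1 * p.2 * p.1⁻¹ = p.2 := by
    field_simp
  rw [h]

theorem ret_exc {i : ZMod n} {y : ℂ × ℂ} (ha : (K.σ i y).1 ≠ 0) (hb : (K.σ i y).2 = 0) (t : Pt n) :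
    Ret K V (.P i y) t ↔ Ret K V (.R (i + 1) (0, (K.σ i y).1⁻¹)) t := by
  constructor
  · rintro ⟨c, hc, ht⟩
    refine ⟨_, E.rbase _ _ rfl, ?_⟩
    rcases E_P hc with ⟨hy, h0, rfl⟩ | ⟨h, -⟩ | ⟨-, -, rfl⟩
    · exact Relation.EqvGen.trans _ _ _
        (Relation.EqvGen.symm _ _ (Relation.EqvGen.rel _ _ (Glue2.exc i y hy ha hb))) ht
    · exact absurd hb h
    · exact ht
  · rintro ⟨c, hc, ht⟩
    rcases E_R hc with ⟨-, rfl⟩ | ⟨h, -⟩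
    · exact ⟨_, E.exc i y ha hb, ht⟩
    · exact absurd rfl h

theorem ret_glue (hm : ∀ i, ∀ y ∈ V i, bA (K.σ i y) ∈ V (i + 1)) {r₁ r₂ : Pt n}
    (h : K.Glue r₁ r₂) (t : Pt n) : Ret K V r₁ t ↔ Ret K V r₂ t := by
  cases h with
  | blow i z hz hU => exact ret_blow hz t
  | shift i y hy hb => exact ret_shift hm hb t
  | exc i y hy ha =>
    by_cases hb : (K.σ i y).2 = 0
    · have h1 : bK (K.σ i y) = (0, (K.σ i y).1⁻¹) := by
        show ((K.σ i y).1 * (K.σ i y).2, (K.σ i y).1⁻¹) = (0, (K.σ i y).1⁻¹)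
        rw [hb, mul_zero]
      rw [h1]
      exact ret_exc ha hb t
    · have h1 : (bK (K.σ i y)).1 ≠ 0 := mul_ne_zero ha hb
      rw [ret_blow h1 t, bB_bK ha]
      exact ret_shift hm hb t

theorem ret_eqv (hm : ∀ i, ∀ y ∈ V i, bA (K.σ i y) ∈ V (i + 1)) {r₁ r₂ : Pt n}
    (h : Relation.EqvGen K.Glue r₁ r₂) : ∀ t : Pt n, Ret K V r₁ t ↔ Ret K V r₂ t := by
  induction h with
  | rel _ _ h => exact fun t => ret_glue hm h t
  | refl _ => exact fun t => Iff.rfl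
  | symm _ _ _ ih => exact fun t => (ih t).symm
  | trans _ _ _ _ _ ih1 ih2 => exact fun t => (ih1 t).trans (ih2 t)

theorem ret_self {r : Pt n} (h : r ∈ dom2 V) : Ret K V r r := by
  cases r with
  | P i y => exact ⟨_, E.base i y h.1 h.2, Relation.EqvGen.refl _⟩
  | R i z => exact ⟨_, E.rbase i z h, Relation.EqvGen.refl _⟩

theorem t_RED2 : S_RED2 := by
  intro n K V δ _ _ _ hm r hr r' hr' h
  obtain ⟨c, hc, hcr⟩ := (ret_eqv hm h r').2 (ret_self hr')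
  exact Relation.EqvGen.trans _ _ _ (E_dom2 hm hc hr) hcr

end Pool.Agent.H92.KT
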