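import Mathlib
import Pool.Agent.H892.KT.EN

/-!
# Kato surfaces and birational structures: task EIG (helper892), helper294
-/

set_option autoImplicit false

open Filter Topology Set
open scoped Manifold ContDiff

namespace Pool.Agent.H294.EN_EIG

open Pool.Agent.H892.KT

theorem eig_prod_range {n : ℕ} [NeZero n] (r : ZMod n → ℂ) :
    ∏ l ∈ Finset.range n, r (l : ZMod n) = ∏ i : ZMod n, r i := by
  symm
  refine Finset.prod_bij (fun i _ => i.val) (fun i _ => Finset.mem_range.2 (ZMod.val_lt i))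
    (fun a _ b _ h => ZMod.val_injective n h)
    (fun b hb => ⟨(b : ZMod n), Finset.mem_univ _, ZMod.val_natCast_of_lt (Finset.mem_range.1 hb)⟩)
    (fun i _ => by rw [ZMod.natCast_zmod_val])

/-- solutions of a cyclic recursion -/
theorem eig_cyc {n : ℕ} [NeZero n] (r : ZMod n → ℂ) (h0 : ∀ i, r i ≠ 0)
    (h1 : ∏ i : ZMod n, r i = 1) : ∃ κ : ZMod n → ℂ, (∀ i, κ i ≠ 0) ∧ ∀ i, κ (i + 1) = r i * κ i := by
  refine ⟨fun i => ∏ l ∈ Finset.range i.val, r (l : ZMod n),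
    fun i => Finset.prod_ne_zero_iff.2 fun l _ => h0 _, fun i => ?_⟩
  have hi := ZMod.val_lt i
  have e : (((i.val + 1 : ℕ)) : ZMod n) = i + 1 := by
    push_cast
    rw [ZMod.natCast_zmod_val]
  have hs : ∏ l ∈ Finset.range (i.val + 1), r (l : ZMod n) =
      r i * ∏ l ∈ Finset.range i.val, r (l : ZMod n) := by
    rw [Finset.prod_range_succ, ZMod.natCast_zmod_val, mul_comm]
  rcases Nat.lt_or_ge (i.val + 1) n with h | h
  · have e2 : (i + 1).val = i.val + 1 := by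
      rw [← e, ZMod.val_natCast_of_lt h]
    simp only
    rw [e2, hs]
  · have e3 : i.val + 1 = n := by omega
    have e2 : (i + 1).val = 0 := by
      rw [← e, e3, ZMod.natCast_self, ZMod.val_zero]
    simp only
    rw [e2, Finset.prod_range_zero, ← hs, e3, eig_prod_range, h1]

theorem eig_cont_bA : Continuous bA := by
  unfold bA
  fun_prop

theorem eig_diff_bA : Differentiable ℂ bA := by
  unfold bA
  fun_prop

theorem eig_bA_zero (p : ℂ × ℂ) (hp : p.2 = 0) : bA p = 0 := by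
  unfold bA
  rw [hp, mul_zero]
  rfl

theorem eig_fd_bA : HasFDerivAt bA
    ((0 : ℂ × ℂ →L[ℂ] ℂ).prod (ContinuousLinearMap.snd ℂ ℂ ℂ)) 0 := by
  have h1 : HasFDerivAt (fun p : ℂ × ℂ => p.1 * p.2)
      ((0 : ℂ × ℂ).1 • ContinuousLinearMap.snd ℂ ℂ ℂ + (0 : ℂ × ℂ).2 • ContinuousLinearMap.fst ℂ ℂ ℂ) 0 :=
    (hasFDerivAt_fst (𝕜 := ℂ) (p := (0 : ℂ × ℂ))).mul (hasFDerivAt_snd (𝕜 := ℂ) (p := (0 : ℂ × ℂ)))
  have h2 : ((0 : ℂ × ℂ).1 • ContinuousLinearMap.snd ℂ ℂ ℂ + (0 : ℂ × ℂ).2 • ContinuousLinearMap.fst ℂ ℂ ℂ)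
      = (0 : ℂ × ℂ →L[ℂ] ℂ) := by
    ext <;> simp
  rw [h2] at h1
  exact h1.prodMk hasFDerivAt_snd

/-- part EIG -/
theorem t_EIG (h1 : S_DIV) (h2 : S_PROD) : S_EIG := by
  intro n _ K hG ht hP
  set t : ZMod n → ℂ := fun i => (fderiv ℂ (K.σ i) 0 (0, 1)).2 with htdef
  have ht' : ∀ i, t i ≠ 0 := ht
  -- the functions on the blow-ups
  have hVo : ∀ j, IsOpen (bA ⁻¹' K.U j) := fun j => (K.isOpen_U j).preimage eig_cont_bA
  have hV0 : ∀ j, (0 : ℂ × ℂ) ∈ bA ⁻¹' K.U j := fun j => by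
    show bA 0 ∈ K.U j
    rw [eig_bA_zero 0 rfl]
    exact K.zero_mem j
  have hgd : ∀ j, DifferentiableOn ℂ (fun p => (K.σ j (bA p)).2) (bA ⁻¹' K.U j) := fun j =>
    (DifferentiableOn.comp (K.diff j) eig_diff_bA.differentiableOn (fun p hp => hp)).snd
  have hg0 : ∀ j, ∀ p ∈ bA ⁻¹' K.U j, p.2 = 0 → (fun p => (K.σ j (bA p)).2) p = 0 := by
    intro j p _ hp
    show (K.σ j (bA p)).2 = 0
    rw [eig_bA_zero p hp, K.map_zero]
    rfl
  choose h hhd hhe hh0 using fun j => h1 (bA ⁻¹' K.U j) (fun p => (K.σ j (bA p)).2) (hVo j) (hgd j) (hg0 j)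
  have hh1 : ∀ j, h j 0 = t j := by
    intro j
    rw [hh0 j 0 (hV0 j) rfl]
    have e1 : HasFDerivAt (K.σ j) (fderiv ℂ (K.σ j) 0) (bA 0) := by
      rw [eig_bA_zero 0 rfl]
      exact ((K.diff j).differentiableAt ((K.isOpen_U j).mem_nhds (K.zero_mem j))).hasFDerivAt
    have e2 := (e1.comp (0 : ℂ × ℂ) eig_fd_bA).snd
    have e3 : HasFDerivAt (fun p => (K.σ j (bA p)).2)
      ((ContinuousLinearMap.snd ℂ ℂ ℂ).comp ((fderiv ℂ (K.σ j) 0).comp
        ((0 : ℂ × ℂ →L[ℂ] ℂ).prod (ContinuousLinearMap.snd ℂ ℂ ℂ)))) 0 := e2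
    rw [e3.fderiv]
    simp [htdef]
  -- the functions for the product
  obtain ⟨θ, C, δ₀, hθ0, hθ1, hC, hδ₀, hgeo⟩ := id hG
  have hmem : ∀ i, ∀ y ∈ K.U i, K.σ i y ∈ bA ⁻¹' K.U (i + 1) := fun i y hy => K.maps i y hy
  have hGd : ∀ i, DifferentiableOn ℂ (fun y => h (i + 1) (K.σ i y) / t (i + 1)) (Metric.ball 0 δ₀) := by
    intro i
    have q1 : DifferentiableOn ℂ (fun y => h (i + 1) (K.σ i y)) (Metric.ball 0 δ₀) := by
      refine (DifferentiableOn.comp (hhd (i + 1)) (K.diff i) (fun y hy => hmem i y hy)).mono ?_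
      intro y hy
      exact (hgeo i y (by simpa using hy)).1
    have q2 := q1.mul_const ((t (i + 1))⁻¹)
    refine q2.congr fun y _ => ?_
    rw [div_eq_mul_inv]
  have hG1 : ∀ i, (fun y => h (i + 1) (K.σ i y) / t (i + 1)) (0 : ℂ × ℂ) = 1 := by
    intro i
    show h (i + 1) (K.σ i 0) / t (i + 1) = 1
    rw [K.map_zero, hh1, div_self (ht' _)]
  obtain ⟨δ, hδ, hδ', H, hHd, hH1, hHne, hHe⟩ := h2 n K hG
    (fun i y => h (i + 1) (K.σ i y) / t (i + 1)) δ₀ hδ₀ hGd hG1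
  -- the eigenvalue
  obtain ⟨τ, hτ⟩ := IsAlgClosed.exists_pow_nat_eq (∏ i : ZMod n, t i) (Nat.pos_of_ne_zero (NeZero.ne n))
  have hPne : (∏ i : ZMod n, t i) ≠ 0 := Finset.prod_ne_zero_iff.2 fun i _ => ht' i
  have hτ0 : τ ≠ 0 := by
    rintro rfl
    rw [zero_pow (NeZero.ne n)] at hτ
    exact hPne hτ.symm
  have hτ1 : ‖τ‖ < 1 := by
    by_contra hc
    push Not at hc
    have h3 : (1 : ℝ) ≤ ‖τ‖ ^ n := one_le_pow₀ hc
    rw [← norm_pow, hτ] at h3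
    exact absurd hP (not_lt.2 h3)
  obtain ⟨κ, hκ0, hκ⟩ := eig_cyc (fun i => τ / t (i + 1)) (fun i => div_ne_zero hτ0 (ht' _)) (by
    have q2 : ∏ i : ZMod n, t (i + 1) = ∏ i : ZMod n, t i :=
      Equiv.prod_comp (Equiv.addRight (1 : ZMod n)) t
    rw [Finset.prod_div_distrib, Finset.prod_const, Finset.card_univ, ZMod.card, q2, hτ]
    exact div_self hPne)
  refine ⟨τ, δ, κ, H, hτ0, hτ1, hδ, hκ0, hHd, hH1, hHne, fun i y hy => ⟨(hHe i y hy).1, fun hy' => ?_⟩⟩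
  obtain ⟨hyU, hyH⟩ := hHe i y hy
  have e1 := hyH hy'
  have e2 : (K.σ (i + 1) (bA (K.σ i y))).2 = (K.σ i y).2 * h (i + 1) (K.σ i y) :=
    hhe (i + 1) (K.σ i y) (hmem i y hyU)
  have e3 : κ (i + 1) * t (i + 1) = τ * κ i := by
    rw [hκ i]
    have := ht' (i + 1)
    field_simp
  have e4 : h (i + 1) (K.σ i y) = t (i + 1) * (h (i + 1) (K.σ i y) / t (i + 1)) := by
    have := ht' (i + 1)
    field_simp
  rw [e2, e1]
  calc κ (i + 1) * ((K.σ i y).2 * h (i + 1) (K.σ i y)) * H (i + 1) (bA (K.σ i y))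
      = κ (i + 1) * ((K.σ i y).2 * (t (i + 1) * (h (i + 1) (K.σ i y) / t (i + 1)))) *
          H (i + 1) (bA (K.σ i y)) := by rw [← e4]
    _ = (κ (i + 1) * t (i + 1)) * (K.σ i y).2 * (h (i + 1) (K.σ i y) / t (i + 1)) *
          H (i + 1) (bA (K.σ i y)) := by ring
    _ = _ := by rw [e3]; ring

end Pool.Agent.H294.EN_EIG
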