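import Mathlib
import Pool.Agent.H892.KT.EN

/-!
# Geometric contraction of the forward orbits near the origin (helper795 for helper892)
-/

set_option autoImplicit false

open Filter Topology Set

namespace Pool.Agent.H795.EN_GEO

open Pool.Agent.H892.KT

theorem orb_zero {n : ℕ} (K : KatoData n) : ∀ (k : ℕ) (i : ZMod n), orb K.σ k i 0 = 0 := by
  intro k
  induction k with
  | zero => intro i; rfl
  | succ k ih =>
    intro i
    show orb K.σ k (i + 1) (bA (K.σ i 0)) = 0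
    have h0 : bA (K.σ i 0) = 0 := by
      rw [K.map_zero i]
      ext
      · simp [bA]
      · simp [bA]
    rw [h0, ih]

theorem orb_add {n : ℕ} (K : KatoData n) (a : ℕ) : ∀ (b : ℕ) (i : ZMod n) (y : ℂ × ℂ),
    orb K.σ (a + b) i y = orb K.σ b (i + (a : ZMod n)) (orb K.σ a i y) := by
  induction a with
  | zero =>
    intro b i y
    rw [Nat.zero_add, Nat.cast_zero, add_zero]
    rfl
  | succ a ih =>
    intro b i y
    have e : a + 1 + b = (a + b) + 1 := by omega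
    rw [e]
    show orb K.σ (a + b) (i + 1) (bA (K.σ i y)) =
      orb K.σ b (i + ((a + 1 : ℕ) : ZMod n)) (orb K.σ a (i + 1) (bA (K.σ i y)))
    rw [ih]
    have e2 : i + 1 + (a : ZMod n) = i + ((a + 1 : ℕ) : ZMod n) := by
      push_cast
      ring
    rw [e2]

theorem prod_range_cast (n : ℕ) [NeZero n] (f : ZMod n → ℂ) :
    ∏ j ∈ Finset.range n, f (j : ZMod n) = ∏ x : ZMod n, f x := by
  refine Finset.prod_nbij' (fun j => (j : ZMod n)) (fun x => x.val) ?_ ?_ ?_ ?_ ?_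
  · intro j _
    exact Finset.mem_univ _
  · intro x _
    exact Finset.mem_range.2 (ZMod.val_lt x)
  · intro j hj
    exact ZMod.val_cast_of_lt (Finset.mem_range.1 hj)
  · intro x _
    exact ZMod.natCast_zmod_val x
  · intro j _
    rfl

theorem prod_all (n : ℕ) [NeZero n] (f : ZMod n → ℂ) (m : ℕ) (i : ZMod n) :
    ∏ j ∈ Finset.range (m * n), f (i + (j : ZMod n)) = (∏ x : ZMod n, f x) ^ m := by
  induction m with
  | zero => rw [Nat.zero_mul, Finset.prod_range_zero, pow_zero]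
  | succ m ih =>
    rw [Nat.succ_mul, Finset.prod_range_add, ih, pow_succ]
    congr 1
    have h1 : ∀ x : ℕ, f (i + ((m * n + x : ℕ) : ZMod n)) = f (i + (x : ZMod n)) := by
      intro x
      congr 2
      push_cast
      rw [ZMod.natCast_self]
      ring
    rw [Finset.prod_congr rfl fun x _ => h1 x, prod_range_cast n (fun x => f (i + x))]
    exact Fintype.prod_equiv (Equiv.addLeft i) _ _ fun x => rfl

theorem t_GEO (h1 : S_FD) : S_GEO := by
  intro n _ K ht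
  -- the number of the steps
  obtain ⟨B, hB, hBi⟩ : ∃ B : ℝ, 0 < B ∧ ∀ i, ‖fderiv ℂ (K.σ i) 0‖ ≤ B := by
    refine ⟨1 + ∑ i, ‖fderiv ℂ (K.σ i) 0‖, ?_, fun i => ?_⟩
    · have : 0 ≤ ∑ i, ‖fderiv ℂ (K.σ i) 0‖ := Finset.sum_nonneg fun i _ => norm_nonneg _
      linarith
    · have := Finset.single_le_sum (f := fun i => ‖fderiv ℂ (K.σ i) 0‖)
        (fun i _ => norm_nonneg _) (Finset.mem_univ i)
      linarith
  obtain ⟨m, hm⟩ := exists_pow_lt_of_lt_one (show (0 : ℝ) < 1 / (4 * B) by positivity) ht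
  obtain ⟨M, hM⟩ : ∃ M, M = m * n + 1 := ⟨_, rfl⟩
  have hMpos : 0 < M := by omega
  have hMev : ∀ i, ∀ᶠ y in 𝓝 (0 : ℂ × ℂ), ‖orb K.σ M i y‖ ≤ 1 / 2 * ‖y‖ := by
    intro i
    obtain ⟨A, hA, hAv⟩ := h1 n K (m * n) i
    rw [← hM] at hA
    have hAb : ∀ v, ‖A v‖ ≤ 1 / 4 * ‖v‖ := by
      intro v
      rw [hAv, prod_all n (fun x => (fderiv ℂ (K.σ x) 0 (0, 1)).2) m (i + 1)]
      have e1 : ‖((0 : ℂ), (fderiv ℂ (K.σ i) 0 v).2 *
          (∏ x : ZMod n, (fderiv ℂ (K.σ x) 0 (0, 1)).2) ^ m)‖ =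
          ‖(fderiv ℂ (K.σ i) 0 v).2‖ *
            ‖∏ x : ZMod n, (fderiv ℂ (K.σ x) 0 (0, 1)).2‖ ^ m := by
        rw [Prod.norm_def]
        simp only
        rw [norm_zero, norm_mul, norm_pow]
        exact max_eq_right (by positivity)
      rw [e1]
      have e2 : ‖(fderiv ℂ (K.σ i) 0 v).2‖ ≤ B * ‖v‖ :=
        (norm_snd_le _).trans ((ContinuousLinearMap.le_opNorm _ _).trans
          (mul_le_mul_of_nonneg_right (hBi i) (norm_nonneg _)))
      have e3 : ‖(fderiv ℂ (K.σ i) 0 v).2‖ *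
            ‖∏ x : ZMod n, (fderiv ℂ (K.σ x) 0 (0, 1)).2‖ ^ m ≤
          (B * ‖v‖) * (1 / (4 * B)) :=
        mul_le_mul e2 hm.le (by positivity) (by positivity)
      refine e3.trans (le_of_eq ?_)
      field_simp
    have hlo := hA.isLittleO.bound (show (0 : ℝ) < 1 / 4 by norm_num)
    filter_upwards [hlo] with y hy
    rw [orb_zero, sub_zero, sub_zero] at hy
    have h3 : ‖orb K.σ M i y‖ ≤ ‖orb K.σ M i y - A y‖ + ‖A y‖ := by
      have := norm_add_le (orb K.σ M i y - A y) (A y)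
      rwa [sub_add_cancel] at this
    have h4 := hAb y
    linarith
  have hsm : ∀ (k : ℕ) (i : ZMod n), ∃ C : ℝ, ∀ᶠ y in 𝓝 (0 : ℂ × ℂ),
      ‖orb K.σ k i y‖ ≤ C * ‖y‖ := by
    intro k i
    rcases k with _ | k
    · refine ⟨1, Eventually.of_forall fun y => ?_⟩
      rw [one_mul]
      exact le_rfl
    · obtain ⟨A, hA, -⟩ := h1 n K k i
      obtain ⟨C, hC⟩ := hA.isBigO_sub.bound
      refine ⟨C, ?_⟩
      filter_upwards [hC] with y hy
      rwa [orb_zero, sub_zero, sub_zero] at hy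
  choose C hC using fun (k : Fin M) (i : ZMod n) => hsm k i
  obtain ⟨C0, hC0, hCi⟩ : ∃ C0 : ℝ, 1 ≤ C0 ∧ ∀ k i, C k i ≤ C0 := by
    refine ⟨1 + ∑ k, ∑ i, |C k i|, ?_, fun k i => ?_⟩
    · have : 0 ≤ ∑ k, ∑ i, |C k i| :=
        Finset.sum_nonneg fun k _ => Finset.sum_nonneg fun i _ => abs_nonneg _
      linarith
    · have e1 : |C k i| ≤ ∑ i, |C k i| :=
        Finset.single_le_sum (f := fun i => |C k i|) (fun i _ => abs_nonneg _) (Finset.mem_univ i)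
      have e2 : ∑ i, |C k i| ≤ ∑ k, ∑ i, |C k i| :=
        Finset.single_le_sum (f := fun k => ∑ i, |C k i|)
          (fun k _ => Finset.sum_nonneg fun i _ => abs_nonneg _) (Finset.mem_univ k)
      have e3 := le_abs_self (C k i)
      linarith
  have hev1 : ∀ᶠ y in 𝓝 (0 : ℂ × ℂ), ∀ i, ‖orb K.σ M i y‖ ≤ 1 / 2 * ‖y‖ :=
    eventually_all.2 hMev
  have hev2 : ∀ᶠ y in 𝓝 (0 : ℂ × ℂ), ∀ (k : Fin M) (i : ZMod n),
      ‖orb K.σ k i y‖ ≤ C0 * ‖y‖ :=
    eventually_all.2 fun k => eventually_all.2 fun i => (hC k i).mono fun y hy =>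
      hy.trans (mul_le_mul_of_nonneg_right (hCi k i) (norm_nonneg y))
  have hev3 : ∀ᶠ y in 𝓝 (0 : ℂ × ℂ), ∀ i, y ∈ K.U i :=
    eventually_all.2 fun i => (K.isOpen_U i).mem_nhds (K.zero_mem i)
  obtain ⟨δ, hδ, hall⟩ := Metric.eventually_nhds_iff.1 (hev1.and (hev2.and hev3))
  have hall' : ∀ y : ℂ × ℂ, ‖y‖ < δ → (∀ i, ‖orb K.σ M i y‖ ≤ 1 / 2 * ‖y‖) ∧
      (∀ (k : ℕ), k < M → ∀ i, ‖orb K.σ k i y‖ ≤ C0 * ‖y‖) ∧ ∀ i, y ∈ K.U i := by
    intro y hy
    obtain ⟨h2, h3, h4⟩ := hall (y := y) (by rwa [dist_zero_right])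
    exact ⟨h2, fun k hk i => h3 ⟨k, hk⟩ i, h4⟩
  have hq : ∀ (q : ℕ) (i : ZMod n) (y : ℂ × ℂ), ‖y‖ < δ →
      ‖orb K.σ (q * M) i y‖ ≤ (1 / 2) ^ q * ‖y‖ := by
    intro q
    induction q with
    | zero =>
      intro i y _
      rw [Nat.zero_mul, pow_zero, one_mul]
      exact le_rfl
    | succ q ih =>
      intro i y hy
      rw [Nat.succ_mul, orb_add]
      have h2 := ih i y hy
      have h3 : ((1 : ℝ) / 2) ^ q ≤ 1 := pow_le_one₀ (by norm_num) (by norm_num)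
      have h4 : ‖orb K.σ (q * M) i y‖ < δ := by
        refine lt_of_le_of_lt (h2.trans ?_) hy
        have := mul_le_mul_of_nonneg_right h3 (norm_nonneg y)
        rwa [one_mul] at this
      refine ((hall' _ h4).1 _).trans ?_
      rw [pow_succ]
      linarith
  -- the rate
  obtain ⟨θ, hθ⟩ : ∃ θ : ℝ, θ = (1 / 2 : ℝ) ^ ((M : ℝ)⁻¹) := ⟨_, rfl⟩
  have hθ0 : 0 < θ := by rw [hθ]; exact Real.rpow_pos_of_pos (by norm_num) _
  have hθ1 : θ < 1 := by
    rw [hθ]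
    exact Real.rpow_lt_one (by norm_num) (by norm_num)
      (inv_pos.2 (by exact_mod_cast hMpos))
  have hθM : θ ^ M = 1 / 2 := by
    rw [hθ]
    exact Real.rpow_inv_natCast_pow (by norm_num) hMpos.ne'
  refine ⟨θ, 2 * C0, δ, hθ0, hθ1, by linarith, hδ, fun i y hy => ⟨(hall' y hy).2.2 i, ?_⟩⟩
  intro k
  obtain ⟨q, r, hr, hk⟩ : ∃ q r, r < M ∧ k = q * M + r :=
    ⟨k / M, k % M, Nat.mod_lt _ hMpos, by rw [mul_comm]; exact (Nat.div_add_mod k M).symm⟩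
  have h2 := hq q i y hy
  have h3 : ((1 : ℝ) / 2) ^ q ≤ 1 := pow_le_one₀ (by norm_num) (by norm_num)
  have h4 : ‖orb K.σ (q * M) i y‖ < δ := by
    refine lt_of_le_of_lt (h2.trans ?_) hy
    have := mul_le_mul_of_nonneg_right h3 (norm_nonneg y)
    rwa [one_mul] at this
  have h5 : ‖orb K.σ k i y‖ ≤ C0 * ((1 / 2) ^ q * ‖y‖) := by
    rw [hk, orb_add]
    exact ((hall' _ h4).2.1 r hr _).trans (mul_le_mul_of_nonneg_left h2 (by linarith))
  have h6 : ((1 : ℝ) / 2) ^ q ≤ 2 * θ ^ k := by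
    have e1 : θ ^ k = (1 / 2) ^ q * θ ^ r := by
      rw [hk, pow_add, mul_comm q M, pow_mul, hθM]
    have e2 : 1 / 2 ≤ θ ^ r := by
      rw [← hθM]
      exact pow_le_pow_of_le_one hθ0.le hθ1.le hr.le
    rw [e1]
    have e3 : (0 : ℝ) ≤ (1 / 2) ^ q := by positivity
    nlinarith
  calc ‖orb K.σ k i y‖ ≤ C0 * ((1 / 2) ^ q * ‖y‖) := h5
    _ ≤ C0 * ((2 * θ ^ k) * ‖y‖) := mul_le_mul_of_nonneg_left
        (mul_le_mul_of_nonneg_right h6 (norm_nonneg y)) (by linarith)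
    _ = 2 * C0 * θ ^ k * ‖y‖ := by ring

end Pool.Agent.H795.EN_GEO
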