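import Mathlib
import Pool.Agent.H892.KT.EN

set_option autoImplicit false

open Filter Topology Set
open scoped Manifold ContDiff

namespace Pool.Agent.H736.EN_GEO1

open Pool.Agent.H892.KT

theorem t_GEO1 : S_GEO1 := by
  intro n _ K τ hF
  obtain ⟨h0, h1, h2⟩ := hF
  have hev : ∀ i, ∃ d : ℝ, 0 < d ∧ ∀ y : ℂ × ℂ, ‖y‖ < d → y ∈ K.U i ∧ ‖(K.σ i y).1‖ ≤ 1 := by
    intro i
    have hU : K.U i ∈ 𝓝 (0 : ℂ × ℂ) := (K.isOpen_U i).mem_nhds (K.zero_mem i)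
    have hc : ContinuousAt (K.σ i) 0 := (K.diff i).continuousOn.continuousAt hU
    have hc1 : ContinuousAt (fun y => ‖(K.σ i y).1‖) 0 := hc.fst.norm
    have hlt : ‖(K.σ i 0).1‖ < 1 := by
      rw [K.map_zero i]
      simp
    have hE : ∀ᶠ y in 𝓝 (0 : ℂ × ℂ), y ∈ K.U i ∧ ‖(K.σ i y).1‖ ≤ 1 := by
      filter_upwards [hU, hc1.eventually (gt_mem_nhds hlt)] with y hy1 hy2
      exact ⟨hy1, le_of_lt hy2⟩
    obtain ⟨d, hd, hd2⟩ := Metric.eventually_nhds_iff.1 hE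
    refine ⟨d, hd, fun y hy => hd2 ?_⟩
    rwa [dist_zero_right]
  choose d hd hd2 using hev
  obtain ⟨i0, hi0⟩ := Finite.exists_min d
  refine ⟨‖τ‖, 1, d i0, norm_pos_iff.2 h0, h1, le_refl 1, hd i0, fun i y hy =>
    ⟨(hd2 i y (lt_of_lt_of_le hy (hi0 i))).1, ?_⟩⟩
  intro k
  rw [one_mul]
  induction k generalizing i y with
  | zero =>
    rw [pow_zero, one_mul]
    exact le_refl _
  | succ k ih =>
    have hb := hd2 i y (lt_of_lt_of_le hy (hi0 i))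
    have e : (K.σ i y).2 = τ * y.2 := h2 i y hb.1
    have hsnd : ‖(K.σ i y).2‖ ≤ ‖τ‖ * ‖y‖ := by
      rw [e, norm_mul]
      exact mul_le_mul_of_nonneg_left (norm_snd_le y) (norm_nonneg τ)
    have hn : ‖bA (K.σ i y)‖ ≤ ‖τ‖ * ‖y‖ := by
      rw [Prod.norm_def]
      refine max_le ?_ hsnd
      show ‖(K.σ i y).1 * (K.σ i y).2‖ ≤ _
      rw [norm_mul]
      calc ‖(K.σ i y).1‖ * ‖(K.σ i y).2‖ ≤ 1 * ‖(K.σ i y).2‖ :=
            mul_le_mul_of_nonneg_right hb.2 (norm_nonneg _)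
        _ = ‖(K.σ i y).2‖ := one_mul _
        _ ≤ _ := hsnd
    have hle : ‖τ‖ * ‖y‖ ≤ ‖y‖ := by
      have := mul_le_mul_of_nonneg_right h1.le (norm_nonneg y)
      rwa [one_mul] at this
    have hlt : ‖bA (K.σ i y)‖ < d i0 := lt_of_le_of_lt (hn.trans hle) hy
    have h3 := ih (i + 1) (bA (K.σ i y)) hlt
    show ‖orb K.σ k (i + 1) (bA (K.σ i y))‖ ≤ ‖τ‖ ^ (k + 1) * ‖y‖
    calc _ ≤ ‖τ‖ ^ k * ‖bA (K.σ i y)‖ := h3
      _ ≤ ‖τ‖ ^ k * (‖τ‖ * ‖y‖) := mul_le_mul_of_nonneg_left hn (pow_nonneg (norm_nonneg _) _)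
      _ = ‖τ‖ ^ (k + 1) * ‖y‖ := by ring

end Pool.Agent.H736.EN_GEO1
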