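import Mathlib
import Pool.Agent.H892.KT.EN
import Pool.Agent.H892.KT.W.Osgood540

/-!
# Project EN (helper892), task MKK (helper276): transport of Kato data by coordinate changes
-/

set_option autoImplicit false

open Filter Topology Set

namespace Pool.Agent.H276.EN_MKK

open Pool.Agent.H892.KT

theorem fr2 : Module.finrank ℂ (ℂ × ℂ) = 2 := by
  rw [Module.finrank_prod, Module.finrank_self]

/-- the image of an open set by an injective holomorphic map is open -/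
theorem isOpen_im {V : Set (ℂ × ℂ)} {ψ : ℂ × ℂ → ℂ × ℂ} (hV : IsOpen V)
    (hd : DifferentiableOn ℂ ψ V) (hi : InjOn ψ V) : IsOpen (ψ '' V) := by
  rw [isOpen_iff_mem_nhds]
  rintro _ ⟨y, hy, rfl⟩
  have hinj : Function.Injective (fderiv ℂ ψ y : (ℂ × ℂ) →ₗ[ℂ] (ℂ × ℂ)) :=
    L540.osgood 2 (ℂ × ℂ) (ℂ × ℂ) fr2 fr2 V hV ψ hd hi y hy
  let e : (ℂ × ℂ) ≃ₗ[ℂ] (ℂ × ℂ) := LinearEquiv.ofInjectiveEndo _ hinj
  have hT : (e.toContinuousLinearEquiv : (ℂ × ℂ) →L[ℂ] (ℂ × ℂ)) = fderiv ℂ ψ y := by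
    ext <;> rfl
  have hstr : HasStrictFDerivAt ψ (e.toContinuousLinearEquiv : (ℂ × ℂ) →L[ℂ] (ℂ × ℂ)) y := by
    rw [hT]
    have h1 : ContDiffAt ℂ (1 : ℕ) ψ y :=
      (L540.contDiffOn_of_differentiableOn hV hd 1).contDiffAt (hV.mem_nhds hy)
    exact h1.hasStrictFDerivAt (by simp)
  rw [← hstr.map_nhds_eq_of_equiv]
  exact image_mem_map (hV.mem_nhds hy)

theorem t_MKK : S_MKK := by
  intro n _ K V δ δ' ψ s hN hψ hψi hψ0 hs hsi hs0 hconj
  obtain ⟨g, hg⟩ : ∃ g : ZMod n → ℂ × ℂ → ℂ × ℂ,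
      g = fun i => Function.invFunOn (ψ i) (V i) := ⟨_, rfl⟩
  have hg1 : ∀ i, ∀ y ∈ V i, g i (ψ i y) = y := by
    intro i y hy
    rw [hg]
    exact (hψi i).leftInvOn_invFunOn hy
  have hgm : ∀ i, ∀ z ∈ ψ i '' V i, g i z ∈ V i := by
    rintro i _ ⟨y, hy, rfl⟩
    rw [hg1 i y hy]
    exact hy
  have hg2 : ∀ i, ∀ z ∈ ψ i '' V i, ψ i (g i z) = z := by
    rintro i _ ⟨y, hy, rfl⟩
    rw [hg1 i y hy]
  have hop : ∀ i, IsOpen (ψ i '' V i) := fun i => isOpen_im (hN.isOpen i) (hψ i) (hψi i)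
  have hgd : ∀ i, DifferentiableOn ℂ (g i) (ψ i '' V i) := fun i =>
    L540.differentiableOn_of_comp rfl (hN.isOpen i) (hop i) (hψ i) (hψi i) differentiableOn_id
      (hgm i) (hg2 i)
  have h0 : ∀ i, (0 : ℂ × ℂ) ∈ V i := fun i => hN.ball_sub i (Metric.mem_ball_self hN.pos)
  obtain ⟨σ', hσ'⟩ : ∃ σ' : ZMod n → ℂ × ℂ → ℂ × ℂ, σ' = fun i z => s i (g i z) := ⟨_, rfl⟩
  have hσψ : ∀ i, ∀ y ∈ V i, σ' i (ψ i y) = s i y := by
    intro i y hy
    rw [hσ']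
    show s i (g i (ψ i y)) = s i y
    rw [hg1 i y hy]
  have horb : ∀ k : ℕ, ∀ i, ∀ y ∈ V i, ∃ j, orb σ' k i (ψ i y) = ψ j (orb K.σ k i y) := by
    intro k
    induction k with
    | zero => exact fun i y _ => ⟨i, rfl⟩
    | succ k ih =>
      intro i y hy
      obtain ⟨j, hj⟩ := ih (i + 1) (bA (K.σ i y)) (hN.maps i y hy)
      refine ⟨j, ?_⟩
      show orb σ' k (i + 1) (bA (σ' i (ψ i y))) = ψ j (orb K.σ k (i + 1) (bA (K.σ i y)))
      rw [hσψ i y hy, hconj i y hy]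
      exact hj
  refine ⟨{ U := fun i => ψ i '' V i
            σ := σ'
            isOpen_U := hop
            zero_mem := fun i => ⟨0, h0 i, hψ0 i⟩
            diff := ?_
            inj := ?_
            map_zero := ?_
            maps := ?_
            contr := ?_ }, fun _ => rfl, hσψ⟩
  · intro i
    rw [hσ']
    exact (hs i).comp (hgd i) (hgm i)
  · rintro i _ ⟨y, hy, rfl⟩ _ ⟨y', hy', rfl⟩ h
    rw [hσψ i y hy, hσψ i y' hy'] at h
    rw [hsi i hy hy' h]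
  · intro i
    have h1 := hσψ i 0 (h0 i)
    rw [hψ0, hs0] at h1
    exact h1
  · rintro i _ ⟨y, hy, rfl⟩
    refine ⟨bA (K.σ i y), hN.maps i y hy, ?_⟩
    rw [hσψ i y hy, hconj i y hy]
  · rintro i _ ⟨y, hy, rfl⟩
    rw [tendsto_def]
    intro W hW
    have hev : ∀ᶠ x in 𝓝 (0 : ℂ × ℂ), ∀ j, ψ j x ∈ W := by
      rw [eventually_all]
      intro j
      have hc : ContinuousAt (ψ j) 0 :=
        ((hψ j).differentiableAt ((hN.isOpen j).mem_nhds (h0 j))).continuousAt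
      have hc' : Tendsto (ψ j) (𝓝 0) (𝓝 0) := by
        have h1 := hc.tendsto
        rwa [hψ0] at h1
      exact hc' hW
    have h2 := (K.contr i y (hN.subU i hy)).eventually hev
    filter_upwards [h2] with k hk
    obtain ⟨j, hj⟩ := horb k i y hy
    show orb σ' k i (ψ i y) ∈ W
    rw [hj]
    exact hk j

end Pool.Agent.H276.EN_MKK
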