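import Mathlib
import Pool.Agent.H892.KT.EN

/-!
# Project EN of helper892: solution of a recursion (helper981)
-/

set_option autoImplicit false

open Filter Topology
open Pool.Agent.H892.KT

namespace Pool.Agent.H981.EN_QSEQ

/-- The terms of the solution. -/
noncomputable def Tm {n : ℕ} (c : ZMod n → ℂ) (τ : ℂ) (r : ZMod n → ℕ → ℂ) :
    ℕ → ZMod n → ℕ → ℂ
  | 0, i, k => (c i)⁻¹ * r i k
  | m + 1, i, k => (c i)⁻¹ * τ ^ k * Tm c τ r m (i + 1) (k + 1)

theorem t_QSEQ : S_QSEQ := by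
  intro n _ c τ r C R hc hτ hC hR hr
  set g : ℝ := 1 + ∑ i, ‖(c i)⁻¹‖ with hg
  have hsum0 : 0 ≤ ∑ i, ‖(c i)⁻¹‖ := Finset.sum_nonneg (fun i _ => norm_nonneg _)
  have hg1 : 1 ≤ g := by linarith
  have hg0 : 0 ≤ g := by linarith
  have hR0 : 0 ≤ R := by linarith
  have hgc : ∀ i, ‖(c i)⁻¹‖ ≤ g := by
    intro i
    have := Finset.single_le_sum (f := fun i => ‖(c i)⁻¹‖) (fun i _ => norm_nonneg _)
      (Finset.mem_univ i)
    linarith
  -- the bound for the terms
  have hT : ∀ m i k, ‖Tm c τ r m i k‖ ≤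
      C * g * R ^ k * ∏ j ∈ Finset.range m, (g * R * ‖τ‖ ^ (k + j)) := by
    intro m
    induction m with
    | zero =>
      intro i k
      rw [Finset.range_zero, Finset.prod_empty, mul_one]
      show ‖(c i)⁻¹ * r i k‖ ≤ _
      rw [norm_mul]
      calc ‖(c i)⁻¹‖ * ‖r i k‖ ≤ g * (C * R ^ k) :=
            mul_le_mul (hgc i) (hr i k) (norm_nonneg _) hg0
        _ = C * g * R ^ k := by ring
    | succ m ih =>
      intro i k
      show ‖(c i)⁻¹ * τ ^ k * Tm c τ r m (i + 1) (k + 1)‖ ≤ _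
      rw [norm_mul, norm_mul, norm_pow, Finset.prod_range_succ']
      have e : ∀ j : ℕ, k + 1 + j = k + (j + 1) := fun j => by omega
      have ih' := ih (i + 1) (k + 1)
      simp only [e] at ih'
      have h1 : ‖(c i)⁻¹‖ * ‖τ‖ ^ k ≤ g * ‖τ‖ ^ k :=
        mul_le_mul_of_nonneg_right (hgc i) (by positivity)
      calc ‖(c i)⁻¹‖ * ‖τ‖ ^ k * ‖Tm c τ r m (i + 1) (k + 1)‖
          ≤ (g * ‖τ‖ ^ k) *
            (C * g * R ^ (k + 1) * ∏ j ∈ Finset.range m, (g * R * ‖τ‖ ^ (k + (j + 1)))) :=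
            mul_le_mul h1 ih' (norm_nonneg _) (by positivity)
        _ = _ := by
            rw [pow_succ, add_zero]
            ring
  -- the majorant
  set P : ℕ → ℝ := fun m => ∏ j ∈ Finset.range m, (g * R * ‖τ‖ ^ j) with hP
  have hP0 : ∀ m, 0 ≤ P m := fun m => Finset.prod_nonneg (fun j _ => by positivity)
  have hPs : Summable P := by
    apply summable_of_ratio_norm_eventually_le (r := 1 / 2) (by norm_num)
    have h1 : Tendsto (fun m : ℕ => g * R * ‖τ‖ ^ m) atTop (𝓝 (g * R * 0)) :=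
      (tendsto_pow_atTop_nhds_zero_of_lt_one (norm_nonneg _) hτ).const_mul _
    rw [mul_zero] at h1
    have h2 : ∀ᶠ m in atTop, g * R * ‖τ‖ ^ m < 1 / 2 :=
      h1.eventually (gt_mem_nhds (by norm_num))
    filter_upwards [h2] with m hm
    rw [Real.norm_of_nonneg (hP0 _), Real.norm_of_nonneg (hP0 _)]
    simp only [hP]
    rw [Finset.prod_range_succ, mul_comm]
    exact mul_le_mul_of_nonneg_right hm.le (hP0 m)
  have hT' : ∀ m i k, ‖Tm c τ r m i k‖ ≤ C * g * R ^ k * P m := by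
    intro m i k
    refine (hT m i k).trans (mul_le_mul_of_nonneg_left ?_ (by positivity))
    apply Finset.prod_le_prod (fun j _ => by positivity)
    intro j _
    apply mul_le_mul_of_nonneg_left _ (by positivity)
    exact pow_le_pow_of_le_one (norm_nonneg _) hτ.le (by omega)
  have hsT : ∀ i k, Summable (fun m => ‖Tm c τ r m i k‖) := fun i k =>
    Summable.of_nonneg_of_le (fun m => norm_nonneg _) (fun m => hT' m i k) (hPs.mul_left _)
  refine ⟨fun i k => ∑' m, Tm c τ r m i k, C * g * ∑' m, P m, fun i k => ?_, fun i k => ?_⟩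
  · calc ‖∑' m, Tm c τ r m i k‖ ≤ ∑' m, ‖Tm c τ r m i k‖ := norm_tsum_le_tsum_norm (hsT i k)
      _ ≤ ∑' m, C * g * R ^ k * P m := (hsT i k).tsum_le_tsum (fun m => hT' m i k) (hPs.mul_left _)
      _ = C * g * R ^ k * ∑' m, P m := tsum_mul_left
      _ = C * g * (∑' m, P m) * R ^ k := by ring
  · have h1 : Summable (fun m => Tm c τ r m i k) := (hsT i k).of_norm
    have h2 : ∑' m, Tm c τ r m i k =
        (c i)⁻¹ * r i k + (c i)⁻¹ * τ ^ k * ∑' m, Tm c τ r m (i + 1) (k + 1) := by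
      rw [h1.tsum_eq_zero_add, ← tsum_mul_left]
      rfl
    show c i * (∑' m, Tm c τ r m i k) = r i k + τ ^ k * ∑' m, Tm c τ r m (i + 1) (k + 1)
    rw [h2, mul_add, ← mul_assoc, ← mul_assoc, ← mul_assoc, mul_inv_cancel₀ (hc i), one_mul,
      one_mul]

end Pool.Agent.H981.EN_QSEQ
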