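import Mathlib
import Pool.Agent.H892.KT.EN

/-!
# Project EN of helper892: the remainder in the second variable (helper789)
-/

set_option autoImplicit false

open Filter Topology Set Metric

namespace Pool.Agent.H789.EN_REST

open Pool.Agent.H892.KT

/-- the derivative of `Y ↦ (s Y * (τ * Y.2), τ * Y.2)` -/
theorem fd_f (s : ℂ × ℂ → ℂ) (τ : ℂ) (Y : ℂ × ℂ) (hs : DifferentiableAt ℂ s Y) (v : ℂ × ℂ) :
    DifferentiableAt ℂ (fun Y : ℂ × ℂ => (s Y * (τ * Y.2), τ * Y.2)) Y ∧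
    fderiv ℂ (fun Y : ℂ × ℂ => (s Y * (τ * Y.2), τ * Y.2)) Y v =
      (s Y * (τ * v.2) + τ * Y.2 * fderiv ℂ s Y v, τ * v.2) := by
  have h2 : HasFDerivAt (fun Y : ℂ × ℂ => τ * Y.2) (τ • ContinuousLinearMap.snd ℂ ℂ ℂ) Y :=
    hasFDerivAt_snd.const_mul τ
  have h3 : HasFDerivAt (fun Y : ℂ × ℂ => s Y * (τ * Y.2))
      (s Y • (τ • ContinuousLinearMap.snd ℂ ℂ ℂ) + (τ * Y.2) • fderiv ℂ s Y) Y :=
    hs.hasFDerivAt.mul h2
  have h4 := h3.prodMk h2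
  refine ⟨h4.differentiableAt, ?_⟩
  rw [h4.fderiv]
  rfl

theorem mem_ball' {δ : ℝ} {Y : ℂ × ℂ} : Y ∈ ball (0 : ℂ × ℂ) δ ↔ ‖Y.1‖ < δ ∧ ‖Y.2‖ < δ := by
  rw [mem_ball_zero_iff, Prod.norm_def, max_lt_iff]

/-- a function with zero derivative in the first variable off the axis is constant along the first
variable -/
theorem cst (δ : ℝ) (F : ℂ × ℂ → ℂ) (hF : DifferentiableOn ℂ F (ball 0 δ))
    (h : ∀ Y ∈ ball (0 : ℂ × ℂ) δ, Y.2 ≠ 0 → fderiv ℂ F Y (1, 0) = 0) :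
    ∀ Y ∈ ball (0 : ℂ × ℂ) δ, F Y = F (0, Y.2) := by
  have key : ∀ Y ∈ ball (0 : ℂ × ℂ) δ, Y.2 ≠ 0 → F Y = F (0, Y.2) := by
    intro Y hY hz
    obtain ⟨h1, h2⟩ := mem_ball'.1 hY
    have hδ : 0 < δ := lt_of_le_of_lt (norm_nonneg _) h1
    have hd : ∀ a ∈ ball (0 : ℂ) δ, HasDerivAt (fun a : ℂ => F (a, Y.2)) 0 a := by
      intro a ha
      have hm : (a, Y.2) ∈ ball (0 : ℂ × ℂ) δ :=
        mem_ball'.2 ⟨mem_ball_zero_iff.1 ha, h2⟩
      have h3 : HasFDerivAt F (fderiv ℂ F (a, Y.2)) (a, Y.2) :=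
        (hF.differentiableAt (isOpen_ball.mem_nhds hm)).hasFDerivAt
      have h4 : HasDerivAt (fun a : ℂ => (a, Y.2)) ((1 : ℂ), (0 : ℂ)) a :=
        (hasDerivAt_id a).prodMk (hasDerivAt_const a Y.2)
      have h5 := h3.comp_hasDerivAt a h4
      rw [h (a, Y.2) hm hz] at h5
      exact h5
    have hc : ∀ x ∈ ball (0 : ℂ) δ, ∀ y ∈ ball (0 : ℂ) δ, F (x, Y.2) = F (y, Y.2) := by
      intro x hx y hy
      exact (convex_ball (0 : ℂ) δ).is_const_of_fderivWithin_eq_zero (𝕜 := ℂ)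
        (f := fun a : ℂ => F (a, Y.2))
        (fun a ha => (hd a ha).differentiableAt.differentiableWithinAt)
        (fun a ha => by
          rw [fderivWithin_of_isOpen isOpen_ball ha, (hd a ha).hasFDerivAt.fderiv]
          ext
          simp) hx hy
    exact hc Y.1 (mem_ball_zero_iff.2 h1) 0 (mem_ball_self hδ)
  intro Y hY
  obtain ⟨h1, h2⟩ := mem_ball'.1 hY
  have hδ : 0 < δ := lt_of_le_of_lt (norm_nonneg _) h1
  by_cases hz : Y.2 = 0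
  · have hm0 : (0, Y.2) ∈ ball (0 : ℂ × ℂ) δ := mem_ball'.2 ⟨by simpa using hδ, h2⟩
    have c1 : Tendsto (fun z : ℂ => F (Y.1, z)) (𝓝[≠] Y.2) (𝓝 (F (Y.1, Y.2))) := by
      have h3 : ContinuousAt F (Y.1, Y.2) :=
        (hF.differentiableAt (isOpen_ball.mem_nhds hY)).continuousAt
      have h4 : ContinuousAt (fun z : ℂ => (Y.1, z)) Y.2 := by fun_prop
      exact ((ContinuousAt.comp (f := fun z : ℂ => (Y.1, z)) (g := F) h3 h4).tendsto).mono_left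
        nhdsWithin_le_nhds
    have c2 : Tendsto (fun z : ℂ => F (0, z)) (𝓝[≠] Y.2) (𝓝 (F (0, Y.2))) := by
      have h3 : ContinuousAt F (0, Y.2) :=
        (hF.differentiableAt (isOpen_ball.mem_nhds hm0)).continuousAt
      have h4 : ContinuousAt (fun z : ℂ => ((0 : ℂ), z)) Y.2 := by fun_prop
      exact ((ContinuousAt.comp (f := fun z : ℂ => ((0 : ℂ), z)) (g := F) h3 h4).tendsto).mono_left
        nhdsWithin_le_nhds
    have e : (fun z : ℂ => F (Y.1, z)) =ᶠ[𝓝[≠] Y.2] fun z : ℂ => F (0, z) := by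
      have hb : ∀ᶠ z in 𝓝[≠] Y.2, z ∈ ball (0 : ℂ) δ :=
        nhdsWithin_le_nhds (isOpen_ball.mem_nhds (mem_ball_zero_iff.2 h2))
      filter_upwards [hb, self_mem_nhdsWithin] with z hzb hzn
      refine key (Y.1, z) (mem_ball'.2 ⟨h1, mem_ball_zero_iff.1 hzb⟩) ?_
      intro h0
      apply hzn
      show z = Y.2
      rw [hz]
      exact h0
    exact tendsto_nhds_unique (c1.congr' e) c2
  · exact key Y hY hz

theorem t_REST (hDIV : S_DIV) : S_REST := by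
  intro n _ K τ δ c h χ hF hδ hsub hχ hχ0 hχ' hc
  obtain ⟨hτ, -, hform⟩ := hF
  -- the maps
  have hσd : ∀ i, ∀ Y ∈ K.U i, DifferentiableAt ℂ (K.σ i) Y := fun i Y hY =>
    (K.diff i).differentiableAt ((K.isOpen_U i).mem_nhds hY)
  have hf0 : ∀ i, bA (K.σ i 0) = 0 := by
    intro i
    rw [K.map_zero i]
    simp [bA]
  have hfd : ∀ i, ∀ Y ∈ K.U i, DifferentiableAt ℂ (fun Y => bA (K.σ i Y)) Y ∧ ∀ v : ℂ × ℂ,
      fderiv ℂ (fun Y => bA (K.σ i Y)) Y v = ((K.σ i Y).1 * (τ * v.2) +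
        τ * Y.2 * (fderiv ℂ (K.σ i) Y v).1, τ * v.2) := by
    intro i Y hY
    have hs : DifferentiableAt ℂ (fun Y => (K.σ i Y).1) Y := (hσd i Y hY).fst
    have e1 : ∀ v, fderiv ℂ (fun Y => (K.σ i Y).1) Y v = (fderiv ℂ (K.σ i) Y v).1 := by
      intro v
      have h1 : HasFDerivAt (fun Y => (K.σ i Y).1)
        ((ContinuousLinearMap.fst ℂ ℂ ℂ).comp (fderiv ℂ (K.σ i) Y)) Y :=
        (hσd i Y hY).hasFDerivAt.fst
      rw [h1.fderiv]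
      rfl
    have e2 : (fun Y => bA (K.σ i Y)) =ᶠ[𝓝 Y]
        fun Y : ℂ × ℂ => ((K.σ i Y).1 * (τ * Y.2), τ * Y.2) := by
      filter_upwards [(K.isOpen_U i).mem_nhds hY] with Z hZ
      show ((K.σ i Z).1 * (K.σ i Z).2, (K.σ i Z).2) = _
      rw [hform i Z hZ]
    have h3 := fun v => fd_f (fun Y => (K.σ i Y).1) τ Y hs v
    refine ⟨e2.differentiableAt_iff.2 (h3 0).1, fun v => ?_⟩
    rw [e2.fderiv_eq, (h3 v).2, e1]
  -- the radius
  have hev : ∀ᶠ Y in 𝓝 (0 : ℂ × ℂ), ∀ i, bA (K.σ i Y) ∈ ball (0 : ℂ × ℂ) δ := by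
    rw [eventually_all]
    intro i
    have h1 : ContinuousAt (fun Y => bA (K.σ i Y)) 0 := (hfd i 0 (K.zero_mem i)).1.continuousAt
    have h2 : ball (0 : ℂ × ℂ) δ ∈ 𝓝 (bA (K.σ i 0)) := by
      rw [hf0 i]
      exact ball_mem_nhds _ hδ
    exact h1 h2
  obtain ⟨δ₀, hδ₀, hb₀⟩ := Metric.eventually_nhds_iff_ball.1 hev
  set δ₁ := min δ δ₀ with hδ₁
  have hpos : 0 < δ₁ := lt_min hδ hδ₀
  have hle : δ₁ ≤ δ := min_le_left _ _
  have hB : ball (0 : ℂ × ℂ) δ₁ ⊆ ball 0 δ := ball_subset_ball hle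
  have hB0 : ball (0 : ℂ × ℂ) δ₁ ⊆ ball 0 δ₀ := ball_subset_ball (min_le_right _ _)
  have hfm : ∀ i, ∀ Y ∈ ball (0 : ℂ × ℂ) δ₁, bA (K.σ i Y) ∈ ball (0 : ℂ × ℂ) δ :=
    fun i Y hY => hb₀ Y (hB0 hY) i
  have hχd : ∀ i, ∀ Y ∈ ball (0 : ℂ × ℂ) δ, DifferentiableAt ℂ (χ i) Y := fun i Y hY =>
    (hχ i).differentiableAt (isOpen_ball.mem_nhds hY)
  have hm0 : (0 : ℂ × ℂ) ∈ ball (0 : ℂ × ℂ) δ₁ := mem_ball_self hpos
  -- the functions `g i`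
  have hgd : ∀ i, ∀ Y ∈ ball (0 : ℂ × ℂ) δ₁,
      HasFDerivAt (fun Y => χ (i + 1) (bA (K.σ i Y)))
        ((fderiv ℂ (χ (i + 1)) (bA (K.σ i Y))).comp (fderiv ℂ (fun Y => bA (K.σ i Y)) Y)) Y := by
    intro i Y hY
    exact HasFDerivAt.comp (f := fun Y => bA (K.σ i Y)) (g := χ (i + 1)) Y
      (hχd (i + 1) _ (hfm i Y hY)).hasFDerivAt (hfd i Y (hsub i (hB hY))).1.hasFDerivAt
  have hH : ∀ i, ∃ H : ℂ × ℂ → ℂ, DifferentiableOn ℂ H (ball 0 δ₁) ∧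
      (∀ p ∈ ball (0 : ℂ × ℂ) δ₁, χ (i + 1) (bA (K.σ i p)) = p.2 * H p) ∧
      ∀ p ∈ ball (0 : ℂ × ℂ) δ₁, p.2 = 0 →
        H p = fderiv ℂ (fun Y => χ (i + 1) (bA (K.σ i Y))) p (0, 1) := by
    intro i
    refine hDIV (ball 0 δ₁) (fun Y => χ (i + 1) (bA (K.σ i Y))) isOpen_ball
      (fun Y hY => (hgd i Y hY).differentiableAt.differentiableWithinAt) ?_
    intro p hp hp2
    have e1 : bA (K.σ i p) = (0, 0) := by
      show ((K.σ i p).1 * (K.σ i p).2, (K.σ i p).2) = _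
      rw [hform i p (hsub i (hB hp)), hp2]
      simp
    show χ (i + 1) (bA (K.σ i p)) = 0
    rw [e1]
    exact hχ0 (i + 1) 0
  choose H hHd hHg hHf using hH
  have hHda : ∀ i, ∀ Y ∈ ball (0 : ℂ × ℂ) δ₁, DifferentiableAt ℂ (H i) Y := fun i Y hY =>
    (hHd i).differentiableAt (isOpen_ball.mem_nhds hY)
  -- the derivative in the first variable
  have hder : ∀ i, ∀ Y ∈ ball (0 : ℂ × ℂ) δ₁, Y.2 ≠ 0 →
      fderiv ℂ (H i) Y (1, 0) = τ * (c i * h i Y) := by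
    intro i Y hY hY2
    have e1 : fderiv ℂ (fun Y => χ (i + 1) (bA (K.σ i Y))) Y (1, 0) =
        τ * Y.2 * (c i * h i Y) := by
      rw [(hgd i Y hY).fderiv, ContinuousLinearMap.comp_apply, (hfd i Y (hsub i (hB hY))).2]
      have e2 : (((K.σ i Y).1 * (τ * ((1 : ℂ), (0 : ℂ)).2) +
          τ * Y.2 * (fderiv ℂ (K.σ i) Y (1, 0)).1, τ * ((1 : ℂ), (0 : ℂ)).2) : ℂ × ℂ) =
          (τ * Y.2 * (fderiv ℂ (K.σ i) Y (1, 0)).1) • ((1 : ℂ), (0 : ℂ)) := by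
        ext
        · simp
        · simp
      rw [e2, map_smul, hχ' (i + 1) _ (hfm i Y hY), hc i Y (hB hY) (hfm i Y hY), smul_eq_mul]
      ring
    have e3 : fderiv ℂ (fun Y => χ (i + 1) (bA (K.σ i Y))) Y (1, 0) =
        Y.2 * fderiv ℂ (H i) Y (1, 0) := by
      have e4 : (fun Y => χ (i + 1) (bA (K.σ i Y))) =ᶠ[𝓝 Y] fun Y : ℂ × ℂ => Y.2 * H i Y := by
        filter_upwards [isOpen_ball.mem_nhds hY] with Z hZ
        exact hHg i Z hZ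
      have h5 : HasFDerivAt (fun Y : ℂ × ℂ => Y.2 * H i Y)
          (Y.2 • fderiv ℂ (H i) Y + H i Y • ContinuousLinearMap.snd ℂ ℂ ℂ) Y :=
        hasFDerivAt_snd.mul (hHda i Y hY).hasFDerivAt
      rw [e4.fderiv_eq, h5.fderiv]
      show Y.2 • fderiv ℂ (H i) Y (1, 0) + H i Y • (0 : ℂ) = _
      rw [smul_zero, add_zero, smul_eq_mul]
    have e5 : Y.2 * fderiv ℂ (H i) Y (1, 0) = Y.2 * (τ * (c i * h i Y)) := by
      rw [← e3, e1]
      ring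
    exact mul_left_cancel₀ hY2 e5
  -- the remainder
  set F : ZMod n → ℂ × ℂ → ℂ := fun i Y => τ⁻¹ * H i Y - c i * χ i Y with hFdef
  have hFd : ∀ i, DifferentiableOn ℂ (F i) (ball 0 δ₁) := by
    intro i Y hY
    exact (((hHda i Y hY).const_mul τ⁻¹).sub
      ((hχd i Y (hB hY)).const_mul (c i))).differentiableWithinAt
  have hFz : ∀ i, ∀ Y ∈ ball (0 : ℂ × ℂ) δ₁, Y.2 ≠ 0 → fderiv ℂ (F i) Y (1, 0) = 0 := by
    intro i Y hY hY2
    have h1 : HasFDerivAt (F i) (τ⁻¹ • fderiv ℂ (H i) Y - c i • fderiv ℂ (χ i) Y) Y :=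
      ((hHda i Y hY).hasFDerivAt.const_mul τ⁻¹).sub
        ((hχd i Y (hB hY)).hasFDerivAt.const_mul (c i))
    rw [h1.fderiv]
    show τ⁻¹ • fderiv ℂ (H i) Y (1, 0) - c i • fderiv ℂ (χ i) Y (1, 0) = 0
    rw [hder i Y hY hY2, hχ' i Y (hB hY), smul_eq_mul, smul_eq_mul, inv_mul_cancel_left₀ hτ,
      sub_self]
  refine ⟨δ₁, fun i z => F i (0, z), hpos, hle, ?_, ?_, ?_⟩
  · intro i z hz
    have hm : ((0 : ℂ), z) ∈ ball (0 : ℂ × ℂ) δ₁ :=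
      mem_ball'.2 ⟨by simpa using hpos, mem_ball_zero_iff.1 hz⟩
    have h1 : DifferentiableAt ℂ (F i) (0, z) :=
      (hFd i).differentiableAt (isOpen_ball.mem_nhds hm)
    have h2 : DifferentiableAt ℂ (fun z : ℂ => ((0 : ℂ), z)) z := by fun_prop
    exact (DifferentiableAt.comp (f := fun z : ℂ => ((0 : ℂ), z)) (g := F i) z h1
      h2).differentiableWithinAt
  · intro i
    show τ⁻¹ * H i (0, 0) - c i * χ i (0, 0) = 0
    have h1 : H i (0, 0) = 0 := by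
      have h2 := hHf i 0 hm0 rfl
      rw [(hgd i 0 hm0).fderiv, ContinuousLinearMap.comp_apply, (hfd i 0 (K.zero_mem i)).2,
        hf0 i, K.map_zero i] at h2
      have e2 : ((((0 : ℂ × ℂ)).1 * (τ * ((0 : ℂ), (1 : ℂ)).2) +
          τ * (0 : ℂ × ℂ).2 * (fderiv ℂ (K.σ i) 0 (0, 1)).1, τ * ((0 : ℂ), (1 : ℂ)).2) : ℂ × ℂ) =
          τ • ((0 : ℂ), (1 : ℂ)) := by
        ext
        · simp
        · simp
      rw [e2, map_smul] at h2
      have h3 : HasDerivAt (fun z : ℂ => ((0 : ℂ), z)) ((0 : ℂ), (1 : ℂ)) 0 :=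
        (hasDerivAt_const (0 : ℂ) (0 : ℂ)).prodMk (hasDerivAt_id (0 : ℂ))
      have h4 : HasFDerivAt (χ (i + 1)) (fderiv ℂ (χ (i + 1)) 0) ((0 : ℂ), (0 : ℂ)) :=
        (hχd (i + 1) 0 (mem_ball_self hδ)).hasFDerivAt
      have h5 := h4.comp_hasDerivAt (0 : ℂ) h3
      have h6 : (χ (i + 1) ∘ fun z : ℂ => ((0 : ℂ), z)) = fun _ => 0 := by
        funext z
        exact hχ0 (i + 1) z
      rw [h6] at h5
      have h7 := h5.unique (hasDerivAt_const (0 : ℂ) (0 : ℂ))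
      rw [h7, smul_zero] at h2
      exact h2
    rw [h1, hχ0 i 0]
    simp
  · intro i Y hY
    have h1 : F i Y = F i (0, Y.2) := cst δ₁ (F i) (hFd i) (hFz i) Y hY
    show χ (i + 1) (bA (K.σ i Y)) = τ * Y.2 * (c i * χ i Y + F i (0, Y.2))
    rw [← h1, hHg i Y hY]
    show Y.2 * H i Y = τ * Y.2 * (c i * χ i Y + (τ⁻¹ * H i Y - c i * χ i Y))
    field_simp
    ring

end Pool.Agent.H789.EN_REST
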