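import Pool.Agent.H892.KT.EN

/-!
# Kato surfaces and birational structures: the second normal form of the Enoki data
-/

set_option autoImplicit false

open Filter Topology Set
open scoped Manifold ContDiff

namespace Pool.Agent.H924.EN_ST2

open Pool.Agent.H892.KT

/-- the derivative of `σ i` in the direction of the first coordinate is holomorphic -/
theorem st2_g (h9 : S_ANA) {n : ℕ} (K : KatoData n) (i : ZMod n) (d : ℝ)
    (hd : Metric.ball (0 : ℂ × ℂ) d ⊆ K.U i) (c : ℂ) :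
    DifferentiableOn ℂ (fun Y => (fderiv ℂ (K.σ i) Y (1, 0)).1 / c) (Metric.ball 0 d) := by
  intro Y hY
  have h1 : AnalyticAt ℂ (K.σ i) Y := h9 (K.U i) (K.σ i) (K.isOpen_U i) (K.diff i) Y (hd hY)
  have h2 : DifferentiableAt ℂ (fderiv ℂ (K.σ i)) Y := h1.fderiv.differentiableAt
  have h3 : DifferentiableAt ℂ (fun Y => fderiv ℂ (K.σ i) Y (1, 0)) Y :=
    h2.clm_apply (differentiableAt_const _)
  have h4 : DifferentiableAt ℂ (fun Y => (fderiv ℂ (K.σ i) Y (1, 0)).1 * c⁻¹) Y :=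
    h3.fst.mul_const c⁻¹
  simp only [div_eq_mul_inv]
  exact h4.differentiableWithinAt

theorem st2_snd {n : ℕ} (K : KatoData n) (τ : ℂ) (hF : Form1 K τ) (i : ZMod n) (v : ℂ × ℂ) :
    (fderiv ℂ (K.σ i) 0 v).2 = τ * v.2 := by
  have hU : K.U i ∈ 𝓝 (0 : ℂ × ℂ) := (K.isOpen_U i).mem_nhds (K.zero_mem i)
  have hd : DifferentiableAt ℂ (K.σ i) 0 := (K.diff i).differentiableAt hU
  have h1 : HasFDerivAt (fun Y => (K.σ i Y).2)
      ((ContinuousLinearMap.snd ℂ ℂ ℂ).comp (fderiv ℂ (K.σ i) 0)) 0 := hd.hasFDerivAt.snd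
  have h2 : HasFDerivAt (fun Y : ℂ × ℂ => τ * Y.2) (τ • ContinuousLinearMap.snd ℂ ℂ ℂ) 0 :=
    hasFDerivAt_snd.const_mul τ
  have h3 : (fun Y => (K.σ i Y).2) =ᶠ[𝓝 0] fun Y => τ * Y.2 := by
    filter_upwards [hU] with Y hY using hF.2.2 i Y hY
  have h4 := h1.unique (h2.congr_of_eventuallyEq h3)
  have h5 := congrArg (fun L : ℂ × ℂ →L[ℂ] ℂ => L v) h4
  simpa using h5

theorem st2_c (h8 : S_INVD) {n : ℕ} (K : KatoData n) (τ : ℂ) (hF : Form1 K τ) (i : ZMod n) :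
    (fderiv ℂ (K.σ i) 0 (1, 0)).1 ≠ 0 := by
  intro h
  obtain ⟨A, hA⟩ := h8 n K i
  have h2 := st2_snd K τ hF i (1, 0)
  have h3 : fderiv ℂ (K.σ i) 0 (1, 0) = 0 := Prod.ext h (by rw [h2]; simp)
  rw [hA] at h3
  have h4 : A ((1 : ℂ), (0 : ℂ)) = A 0 := by rw [map_zero]; exact h3
  have h5 := A.injective h4
  exact one_ne_zero (congrArg Prod.fst h5)

theorem st2_psi (χ : ℂ × ℂ → ℂ) (q : ℂ → ℂ) (hχ : DifferentiableAt ℂ χ 0)
    (hχ0 : ∀ z : ℂ, χ (0, z) = 0) (h1 : fderiv ℂ χ 0 (1, 0) = 1) (hq : DifferentiableAt ℂ q 0)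
    (hq' : deriv q 0 = 0) :
    HasFDerivAt (fun Y : ℂ × ℂ => (χ Y + q Y.2, Y.2)) (ContinuousLinearMap.id ℂ (ℂ × ℂ)) 0 := by
  have hl : HasDerivAt (fun z : ℂ => ((0 : ℂ), z)) ((0 : ℂ), (1 : ℂ)) 0 :=
    (hasDerivAt_const (0 : ℂ) (0 : ℂ)).prodMk (hasDerivAt_id (0 : ℂ))
  have h2 : fderiv ℂ χ 0 (0, 1) = 0 := by
    have h3 : HasDerivAt (χ ∘ fun z : ℂ => ((0 : ℂ), z)) (fderiv ℂ χ 0 (0, 1)) 0 :=
      HasFDerivAt.comp_hasDerivAt (0 : ℂ) hχ.hasFDerivAt hl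
    have h4 : (χ ∘ fun z : ℂ => ((0 : ℂ), z)) = fun _ => 0 := funext fun z => hχ0 z
    rw [h4] at h3
    exact h3.unique (hasDerivAt_const _ _)
  have hq2 : HasFDerivAt (fun Y : ℂ × ℂ => q Y.2) (0 : ℂ × ℂ →L[ℂ] ℂ) 0 := by
    have h5 : HasDerivAt q 0 ((0 : ℂ × ℂ).2) := by
      have h6 := hq.hasDerivAt
      rw [hq'] at h6
      exact h6
    have h7 := h5.comp_hasFDerivAt (0 : ℂ × ℂ) (hasFDerivAt_snd (𝕜 := ℂ) (E := ℂ) (F := ℂ) (p := (0 : ℂ × ℂ)))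
    have h8 : ((0 : ℂ) • ContinuousLinearMap.snd ℂ ℂ ℂ) = (0 : ℂ × ℂ →L[ℂ] ℂ) := by
      refine ContinuousLinearMap.ext fun v => ?_
      simp
    rw [h8] at h7
    exact h7
  have h9 : HasFDerivAt (fun Y : ℂ × ℂ => (χ Y + q Y.2, Y.2))
      ((fderiv ℂ χ 0 + 0).prod (ContinuousLinearMap.snd ℂ ℂ ℂ)) 0 :=
    (hχ.hasFDerivAt.add hq2).prodMk hasFDerivAt_snd
  have h10 : (fderiv ℂ χ 0 + 0).prod (ContinuousLinearMap.snd ℂ ℂ ℂ) =
      ContinuousLinearMap.id ℂ (ℂ × ℂ) := by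
    refine ContinuousLinearMap.ext fun v => ?_
    obtain ⟨a, b⟩ := v
    have h11 : ((a, b) : ℂ × ℂ) = a • ((1 : ℂ), (0 : ℂ)) + b • ((0 : ℂ), (1 : ℂ)) := by
      simp
    have h12 : fderiv ℂ χ 0 (a, b) = a := by
      rw [h11, map_add, map_smul, map_smul, h1, h2]
      simp
    refine Prod.ext ?_ rfl
    show (fderiv ℂ χ 0 + 0) (a, b) = a
    rw [add_zero, h12]
  rw [h10] at h9
  exact h9

/-- a holomorphic map with the derivative `1` at `0` is injective near `0` -/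
theorem st2_inj (h9 : S_ANA) (ψ : ℂ × ℂ → ℂ × ℂ) (d : ℝ) (hd : 0 < d)
    (hψ : DifferentiableOn ℂ ψ (Metric.ball 0 d))
    (h0 : HasFDerivAt ψ (ContinuousLinearMap.id ℂ (ℂ × ℂ)) 0) :
    ∃ e : ℝ, 0 < e ∧ InjOn ψ (Metric.ball 0 e) := by
  have h1 : AnalyticAt ℂ ψ 0 := h9 _ ψ Metric.isOpen_ball hψ 0 (Metric.mem_ball_self hd)
  have h2 : HasStrictFDerivAt ψ (fderiv ℂ ψ 0) 0 := h1.hasStrictFDerivAt
  rw [h0.fderiv] at h2
  have h3 : HasStrictFDerivAt ψ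
      ((ContinuousLinearEquiv.refl ℂ (ℂ × ℂ) : (ℂ × ℂ) ≃L[ℂ] (ℂ × ℂ)) : (ℂ × ℂ) →L[ℂ] (ℂ × ℂ)) 0 :=
    h2
  have h4 := h3.mem_toOpenPartialHomeomorph_source
  obtain ⟨e, he, hs⟩ := Metric.isOpen_iff.1 (h3.toOpenPartialHomeomorph ψ).open_source 0 h4
  refine ⟨e, he, ?_⟩
  have h5 := (h3.toOpenPartialHomeomorph ψ).injOn
  rw [h3.toOpenPartialHomeomorph_coe] at h5
  exact h5.mono hs

theorem t_ST2 (h1 : S_GEO1) (h2 : S_NBHD) (h3 : S_PROD) (h4 : S_PRIM) (h5 : S_REST) (h6 : S_QF)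
    (h7 : S_MKK) (h8 : S_INVD) (h9 : S_ANA) : S_ST2 := by
  intro n _ K τ hF
  have hgeo : Geo K := h1 n K τ hF
  obtain ⟨θ, C, d0, -, -, -, hd0, hG⟩ := id hgeo
  have hU0 : ∀ i, Metric.ball (0 : ℂ × ℂ) d0 ⊆ K.U i := fun i y hy =>
    (hG i y (mem_ball_zero_iff.1 hy)).1
  set c : ZMod n → ℂ := fun i => (fderiv ℂ (K.σ i) 0 (1, 0)).1 with hc_def
  have hc : ∀ i, c i ≠ 0 := fun i => st2_c h8 K τ hF i
  obtain ⟨d1, hd1, hd10, H, hHd, hH0, -, hH⟩ := h3 n K hgeo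
    (fun i Y => (fderiv ℂ (K.σ i) Y (1, 0)).1 / c i) d0 hd0 (fun i => st2_g h9 K i d0 (hU0 i) (c i))
    (fun i => div_self (hc i))
  have hU1 : ∀ i, Metric.ball (0 : ℂ × ℂ) d1 ⊆ K.U i := fun i =>
    (Metric.ball_subset_ball hd10).trans (hU0 i)
  choose χ hχd hχ0 hχ1 using fun i => h4 d1 (H i) hd1 (hHd i)
  obtain ⟨d2, r, hd2, hd21, hrd, hr0, hr⟩ := h5 n K τ d1 c H χ hF hd1 hU1 hχd hχ0 hχ1
    (fun i Y hY hY' => by
      rw [(hH i Y hY).2 hY']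
      have := hc i
      field_simp)
  obtain ⟨d3, q, p, hd3, hd32, hqd, hq0, hq1, hq⟩ := h6 n c τ r d2 hc hF.1 hF.2.1 hd2 hrd hr0
  -- the changes of coordinates
  have hd31 : d3 ≤ d1 := hd32.trans hd21
  set ψ : ZMod n → ℂ × ℂ → ℂ × ℂ := fun i Y => (χ i Y + q i Y.2, Y.2) with hψ_def
  have hsnd : ∀ Y ∈ Metric.ball (0 : ℂ × ℂ) d3, Y.2 ∈ Metric.ball (0 : ℂ) d3 := by
    intro Y hY
    rw [mem_ball_zero_iff] at hY ⊢
    exact (norm_snd_le Y).trans_lt hY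
  have hψd : ∀ i, DifferentiableOn ℂ (ψ i) (Metric.ball 0 d3) := by
    intro i
    refine DifferentiableOn.prodMk (DifferentiableOn.add
      ((hχd i).mono (Metric.ball_subset_ball hd31)) ?_) differentiableOn_snd
    exact (hqd i).comp differentiableOn_snd hsnd
  have hψf : ∀ i, HasFDerivAt (ψ i) (ContinuousLinearMap.id ℂ (ℂ × ℂ)) 0 := by
    intro i
    refine st2_psi (χ i) (q i) ?_ (hχ0 i) ?_ ?_ (hq1 i)
    · exact (hχd i).differentiableAt (Metric.ball_mem_nhds 0 hd1)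
    · rw [hχ1 i 0 (Metric.mem_ball_self hd1), hH0 i]
    · exact (hqd i).differentiableAt (Metric.ball_mem_nhds 0 hd3)
  choose e he hinj using fun i => st2_inj h9 (ψ i) d3 hd3 (hψd i) (hψf i)
  obtain ⟨d4, hd4, hd43, hd4e⟩ : ∃ d4 : ℝ, 0 < d4 ∧ d4 ≤ d3 ∧ ∀ i, d4 ≤ e i := by
    obtain ⟨i0, hi0⟩ := Finite.exists_min e
    exact ⟨min d3 (e i0), lt_min hd3 (he i0), min_le_left _ _, fun i =>
      (min_le_right _ _).trans (hi0 i)⟩
  obtain ⟨V, δ', hV⟩ := h2 n K hgeo d4 hd4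
  have hV3 : ∀ i, V i ⊆ Metric.ball 0 d3 := fun i =>
    (hV.sub_ball i).trans (Metric.ball_subset_ball hd43)
  have hψi : ∀ i, InjOn (ψ i) (V i) := fun i =>
    (hinj i).mono ((hV.sub_ball i).trans (Metric.ball_subset_ball (hd4e i)))
  have hψ0 : ∀ i, ψ i 0 = 0 := by
    intro i
    have e1 : χ i 0 = 0 := hχ0 i 0
    have e2 : q i (0 : ℂ × ℂ).2 = 0 := hq0 i
    show (χ i 0 + q i (0 : ℂ × ℂ).2, (0 : ℂ × ℂ).2) = 0
    rw [e1, e2, add_zero]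
    rfl
  set s : ZMod n → ℂ × ℂ → ℂ × ℂ := fun i Y => (c i * (ψ i Y).1 + p i * Y.2, τ * Y.2) with hs_def
  have hsd : ∀ i, DifferentiableOn ℂ (s i) (V i) := by
    intro i
    have e1 : DifferentiableOn ℂ (fun Y => (ψ i Y).1) (V i) := ((hψd i).mono (hV3 i)).fst
    exact DifferentiableOn.prodMk ((e1.const_mul (c i)).add
      (differentiableOn_snd.const_mul (p i))) (differentiableOn_snd.const_mul τ)
  have hsi : ∀ i, InjOn (s i) (V i) := by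
    intro i Y hY Y' hY' h
    have e2 : τ * Y.2 = τ * Y'.2 := congrArg Prod.snd h
    have e3 : Y.2 = Y'.2 := mul_left_cancel₀ hF.1 e2
    have e4 : c i * (ψ i Y).1 + p i * Y.2 = c i * (ψ i Y').1 + p i * Y'.2 := congrArg Prod.fst h
    rw [e3] at e4
    have e5 : (ψ i Y).1 = (ψ i Y').1 := mul_left_cancel₀ (hc i) (add_right_cancel e4)
    exact hψi i hY hY' (Prod.ext e5 e3)
  have hs0 : ∀ i, s i 0 = 0 := by
    intro i
    show (c i * (ψ i 0).1 + p i * (0 : ℂ × ℂ).2, τ * (0 : ℂ × ℂ).2) = 0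
    rw [hψ0 i]
    simp
  have hconj : ∀ i, ∀ y ∈ V i, bA (s i y) = ψ (i + 1) (bA (K.σ i y)) := by
    intro i y hy
    have hy3 := hV3 i hy
    have hy2 : y ∈ Metric.ball (0 : ℂ × ℂ) d2 := Metric.ball_subset_ball hd32 hy3
    have e1 := hr i y hy2
    have e2 := hq i y.2 (hsnd y hy3)
    have e3 : (bA (K.σ i y)).2 = τ * y.2 := hF.2.2 i y (hV.subU i hy)
    refine Prod.ext ?_ ?_
    · show (c i * (χ i y + q i y.2) + p i * y.2) * (τ * y.2) =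
        χ (i + 1) (bA (K.σ i y)) + q (i + 1) (bA (K.σ i y)).2
      rw [e1, e3]
      linear_combination -e2
    · exact e3.symm
  obtain ⟨K', hU', hσ'⟩ := h7 n K V d4 δ' ψ s hV (fun i => (hψd i).mono (hV3 i)) hψi hψ0 hsd hsi
    hs0 hconj
  refine ⟨K', c, p, V, ψ, δ', hc, ?_, ?_⟩
  · intro i Z hZ
    rw [hU' i] at hZ
    obtain ⟨y, hy, rfl⟩ := hZ
    exact hσ' i y hy
  · exact
      { pos := hV.pos
        isOpen := hV.isOpen
        ball_sub := hV.ball_sub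
        subU := hV.subU
        maps := hV.maps
        diff := fun i => (hψd i).mono (hV3 i)
        inj := hψi
        zero := hψ0
        dir := fun i => by rw [(hψf i).fderiv]; rfl
        U_eq := hU'
        conj := fun i y hy => by rw [hσ' i y hy]; exact hconj i y hy }

end Pool.Agent.H924.EN_ST2
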