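import Mathlib
import Pool.Agent.H892.KT.EN

/-!
# Kato surfaces and birational structures (MP_686bb6_ag): transport of Kato surfaces

Task EN-TP of the plan `H892/KT/EN`.
-/

set_option autoImplicit false

open Filter Topology Set
open scoped Manifold ContDiff

namespace Pool.Agent.H287.EN_TP

open Pool.Agent.H892.KT

theorem t_TP (h1 : S_TPFIB) (h2 : S_TPLOC) (h3 : S_RED1) : S_TP := by
  intro n K K' V ψ δ' hc X _ _ _ hX
  obtain ⟨π, hP⟩ := hX
  obtain ⟨f1, f2, f3⟩ := h1 n K K' V ψ δ' hc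
  obtain ⟨l1, l2⟩ := h2 n K K' V ψ δ' hc X π hP
  have hsub : ∀ r ∈ dom2 V, r ∈ K.dom := by
    rintro (⟨i, y⟩ | ⟨i, z⟩) hr
    · exact ⟨hc.subU i hr.1, hr.2⟩
    · have hz : z.1 = 0 := hr
      have hb : bB z = 0 := by
        unfold bB
        rw [hz, zero_mul]
        rfl
      change bB z ∈ K.U i
      rw [hb]
      exact K.zero_mem i
  refine ⟨fun r => π (back V ψ r), ?_⟩
  refine { locP := l1, locR := l2, surj := ?_, fibre := ?_ }
  · intro x
    obtain ⟨r, hr, rfl⟩ := hP.surj x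
    obtain ⟨r1, hr1, he⟩ := h3 n K V δ' hc.pos hc.ball_sub hc.subU r hr
    obtain ⟨r2, hr2, hb⟩ := f2 r1 hr1
    refine ⟨r2, hr2, ?_⟩
    rw [hb]
    exact ((hP.fibre r hr r1 (hsub r1 hr1)).2 he).symm
  · intro r hr r' hr'
    rw [hP.fibre _ (hsub _ (f1 r hr)) _ (hsub _ (f1 r' hr'))]
    exact f3 r hr r' hr'

end Pool.Agent.H287.EN_TP
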