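import Mathlib
import Pool.Agent.H892.KT.EN

/-!
# Kato surfaces, Enoki part: the identifications correspond (S_TPFIB)
-/

set_option autoImplicit false

open Filter Topology Set
open scoped Manifold ContDiff

namespace Pool.Agent.H650.EN_TPFIB

open Pool.Agent.H892.KT

theorem ne_of_equiv (A : ℂ × ℂ →L[ℂ] ℂ × ℂ) (h : ∃ B : (ℂ × ℂ) ≃L[ℂ] (ℂ × ℂ), A = B)
    (h0 : (A (0, 1)).1 = 0) : (A (0, 1)).2 ≠ 0 ∧ (A (1, 0)).1 ≠ 0 := by
  obtain ⟨B, rfl⟩ := h
  have hinj : Function.Injective (B : ℂ × ℂ → ℂ × ℂ) := B.injective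
  have h1 : ((B : ℂ × ℂ →L[ℂ] ℂ × ℂ) (0, 1)).2 ≠ 0 := by
    intro h2
    have h3 : B (0, 1) = B 0 := by
      rw [map_zero]
      exact Prod.ext h0 h2
    have h4 := hinj h3
    have h5 : (1 : ℂ) = 0 := congrArg Prod.snd h4
    exact one_ne_zero h5
  refine ⟨h1, ?_⟩
  intro h2
  have h3 : B ((B (0, 1)).2 • (1, 0) - (B (1, 0)).2 • (0, 1)) = B 0 := by
    rw [map_zero, map_sub, map_smul, map_smul]
    refine Prod.ext ?_ ?_
    · have h2' : (B (1, 0)).1 = 0 := h2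
      have h0' : (B (0, 1)).1 = 0 := h0
      simp [h2', h0']
    · simp only [Prod.snd_sub, Prod.smul_snd, smul_eq_mul, Prod.snd_zero]
      ring
  have h4 := congrArg Prod.fst (hinj h3)
  have h5 : (B (0, 1)).2 = 0 := by simpa using h4
  exact h1 h5

theorem dirinv_dirm (A : ℂ × ℂ →L[ℂ] ℂ × ℂ) (h1 : (A (0, 1)).2 ≠ 0) (h2 : (A (1, 0)).1 ≠ 0)
    (t : ℂ) : dirinv A (dirm A t) = t := by
  unfold dirinv dirm
  field_simp
  ring

theorem dirm_dirinv (A : ℂ × ℂ →L[ℂ] ℂ × ℂ) (h1 : (A (0, 1)).2 ≠ 0) (h2 : (A (1, 0)).1 ≠ 0)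
    (t : ℂ) : dirm A (dirinv A t) = t := by
  unfold dirinv dirm
  field_simp
  ring

/-- the forward map on names -/
noncomputable def fw {n : ℕ} (ψ : ZMod n → ℂ × ℂ → ℂ × ℂ) : Pt n → Pt n
  | .P i y => .P i (ψ i y)
  | .R i z => .R i (0, dirm (fderiv ℂ (ψ i) 0) z.2)

section

variable {n : ℕ} {K K' : KatoData n} {V : ZMod n → Set (ℂ × ℂ)} {ψ : ZMod n → ℂ × ℂ → ℂ × ℂ}
  {δ' : ℝ}

theorem zmem (h : CC K K' V ψ δ') (i : ZMod n) : (0 : ℂ × ℂ) ∈ V i :=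
  h.ball_sub i (Metric.mem_ball_self h.pos)

theorem inv_psi (h : CC K K' V ψ δ') (i : ZMod n) (y : ℂ × ℂ) (hy : y ∈ V i) :
    Function.invFunOn (ψ i) (V i) (ψ i y) = y :=
  (h.inj i).leftInvOn_invFunOn hy

theorem psi_inv (h : CC K K' V ψ δ') (i : ZMod n) (y : ℂ × ℂ) (hy : y ∈ K'.U i) :
    ψ i (Function.invFunOn (ψ i) (V i) y) = y := by
  rw [h.U_eq i] at hy
  exact Function.invFunOn_eq hy

theorem inv_mem (h : CC K K' V ψ δ') (i : ZMod n) (y : ℂ × ℂ) (hy : y ∈ K'.U i) :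
    Function.invFunOn (ψ i) (V i) y ∈ V i := by
  rw [h.U_eq i] at hy
  exact Function.invFunOn_mem hy

theorem inv_ne (h : CC K K' V ψ δ') (i : ZMod n) (y : ℂ × ℂ) (hy : y ∈ K'.U i) (h0 : y ≠ 0) :
    Function.invFunOn (ψ i) (V i) y ≠ 0 := by
  intro h1
  apply h0
  rw [← psi_inv h i y hy, h1, h.zero i]

theorem psi_ne (h : CC K K' V ψ δ') (i : ZMod n) (y : ℂ × ℂ) (hy : y ∈ V i) (h0 : y ≠ 0) :
    ψ i y ≠ 0 := by
  intro h1
  apply h0
  rw [← h.zero i] at h1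
  exact h.inj i hy (zmem h i) h1

theorem psi_mem (h : CC K K' V ψ δ') (i : ZMod n) (y : ℂ × ℂ) (hy : y ∈ V i) :
    ψ i y ∈ K'.U i := by
  rw [h.U_eq i]
  exact mem_image_of_mem _ hy

theorem bA_zero_iff (p : ℂ × ℂ) : bA p = 0 ↔ p.2 = 0 := by
  constructor
  · intro h
    exact congrArg Prod.snd h
  · intro h
    unfold bA
    rw [h, mul_zero]
    rfl

/-- `b' = 0` if and only if `b = 0` -/
theorem snd_iff (h : CC K K' V ψ δ') (i : ZMod n) (y : ℂ × ℂ) (hy : y ∈ V i) :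
    (K'.σ i (ψ i y)).2 = 0 ↔ (K.σ i y).2 = 0 := by
  rw [← bA_zero_iff, ← bA_zero_iff, h.conj i y hy]
  constructor
  · intro h1
    by_contra h2
    exact psi_ne h (i + 1) _ (h.maps i y hy) h2 h1
  · intro h1
    rw [h1, h.zero]

theorem nondeg (h1 : S_DIR) (h : CC K K' V ψ δ') (i : ZMod n) :
    (fderiv ℂ (ψ i) 0 (0, 1)).2 ≠ 0 ∧ (fderiv ℂ (ψ i) 0 (1, 0)).1 ≠ 0 :=
  ne_of_equiv _ ((h1 n K K' V ψ δ' h).1 i) (h.dir i)

theorem claim1 (h : CC K K' V ψ δ') (r : Pt n) (hr : r ∈ K'.dom) : back V ψ r ∈ dom2 V := by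
  cases r with
  | P i y =>
    have hr' : y ∈ K'.U i ∧ y ≠ 0 := hr
    exact ⟨inv_mem h i y hr'.1, inv_ne h i y hr'.1 hr'.2⟩
  | R i z =>
    have hr' : bB z ∈ K'.U i := hr
    by_cases hz : z.1 = 0
    · have : back V ψ (Pt.R i z) = Pt.R i (0, dirinv (fderiv ℂ (ψ i) 0) z.2) := if_pos hz
      rw [this]
      show ((0 : ℂ), dirinv (fderiv ℂ (ψ i) 0) z.2).1 = 0
      rfl
    · have : back V ψ (Pt.R i z) = Pt.P i (Function.invFunOn (ψ i) (V i) (bB z)) := if_neg hz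
      rw [this]
      refine ⟨inv_mem h i _ hr', inv_ne h i _ hr' ?_⟩
      intro h0
      exact hz (congrArg Prod.fst h0)

theorem claim2 (h1 : S_DIR) (h : CC K K' V ψ δ') (r : Pt n) (hr : r ∈ dom2 V) :
    ∃ r' ∈ K'.dom, back V ψ r' = r := by
  cases r with
  | P i y =>
    have hr' : y ∈ V i ∧ y ≠ 0 := hr
    refine ⟨Pt.P i (ψ i y), ⟨psi_mem h i y hr'.1, psi_ne h i y hr'.1 hr'.2⟩, ?_⟩
    show Pt.P i (Function.invFunOn (ψ i) (V i) (ψ i y)) = Pt.P i y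
    rw [inv_psi h i y hr'.1]
  | R i z =>
    have hr' : z.1 = 0 := hr
    have hn := nondeg h1 h i
    refine ⟨Pt.R i (0, dirm (fderiv ℂ (ψ i) 0) z.2), ?_, ?_⟩
    · show bB ((0 : ℂ), dirm (fderiv ℂ (ψ i) 0) z.2) ∈ K'.U i
      have h2 : bB ((0 : ℂ), dirm (fderiv ℂ (ψ i) 0) z.2) = 0 := by
        unfold bB
        simp
      rw [h2, ← h.zero i]
      exact psi_mem h i 0 (zmem h i)
    · have h2 : back V ψ (Pt.R i (0, dirm (fderiv ℂ (ψ i) 0) z.2)) =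
          Pt.R i (0, dirinv (fderiv ℂ (ψ i) 0) (dirm (fderiv ℂ (ψ i) 0) z.2)) := if_pos rfl
      rw [h2, dirinv_dirm _ hn.1 hn.2]
      have h3 : z = (0, z.2) := Prod.ext hr' rfl
      rw [← h3]

theorem bK_zero (p : ℂ × ℂ) (hp : p.2 = 0) : bK p = (0, p.1⁻¹) := by
  unfold bK
  rw [hp, mul_zero]

theorem bB_bK (p : ℂ × ℂ) (hp : p.1 ≠ 0) : bB (bK p) = bA p := by
  unfold bB bK bA
  refine Prod.ext rfl ?_
  show p.1 * p.2 * p.1⁻¹ = p.2
  field_simp

theorem fw_glue (h1 : S_DIR) (h : CC K K' V ψ δ') (p q : Pt n) (hg : Glue2 K V p q) :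
    K'.Glue (fw ψ p) (fw ψ q) := by
  cases hg with
  | shift i y hy hb =>
    show K'.Glue (Pt.P i (ψ i y)) (Pt.P (i + 1) (ψ (i + 1) (bA (K.σ i y))))
    rw [← h.conj i y hy]
    exact KatoData.Glue.shift i (ψ i y) (psi_mem h i y hy)
      (fun h2 => hb ((snd_iff h i y hy).1 h2))
  | exc i y hy ha hb =>
    show K'.Glue (Pt.P i (ψ i y))
      (Pt.R (i + 1) (0, dirm (fderiv ℂ (ψ (i + 1)) 0) (K.σ i y).1⁻¹))
    obtain ⟨ha', hb', hd⟩ := (h1 n K K' V ψ δ' h).2 i y hy ha hb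
    rw [← hd, ← bK_zero _ hb']
    exact KatoData.Glue.exc i (ψ i y) (psi_mem h i y hy) ha'

theorem fw_gen (h1 : S_DIR) (h : CC K K' V ψ δ') (p q : Pt n)
    (hg : Relation.EqvGen (Glue2 K V) p q) : Relation.EqvGen K'.Glue (fw ψ p) (fw ψ q) := by
  induction hg with
  | rel x y hxy => exact Relation.EqvGen.rel _ _ (fw_glue h1 h x y hxy)
  | refl x => exact Relation.EqvGen.refl _
  | symm x y _ ih => exact Relation.EqvGen.symm _ _ ih
  | trans x y z _ _ ih1 ih2 => exact Relation.EqvGen.trans _ _ _ ih1 ih2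

theorem fw_back (h1 : S_DIR) (h : CC K K' V ψ δ') (r : Pt n) (hr : r ∈ K'.dom) :
    Relation.EqvGen K'.Glue r (fw ψ (back V ψ r)) := by
  cases r with
  | P i y =>
    have hr' : y ∈ K'.U i ∧ y ≠ 0 := hr
    have h2 : fw ψ (back V ψ (Pt.P i y)) = Pt.P i y := by
      show Pt.P i (ψ i (Function.invFunOn (ψ i) (V i) y)) = Pt.P i y
      rw [psi_inv h i y hr'.1]
    rw [h2]
    exact Relation.EqvGen.refl _
  | R i z =>
    have hr' : bB z ∈ K'.U i := hr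
    have hn := nondeg h1 h i
    by_cases hz : z.1 = 0
    · have h2 : back V ψ (Pt.R i z) = Pt.R i (0, dirinv (fderiv ℂ (ψ i) 0) z.2) := if_pos hz
      have h3 : fw ψ (back V ψ (Pt.R i z)) = Pt.R i z := by
        rw [h2]
        show Pt.R i (0, dirm (fderiv ℂ (ψ i) 0) (dirinv (fderiv ℂ (ψ i) 0) z.2)) = Pt.R i z
        rw [dirm_dirinv _ hn.1 hn.2]
        have h4 : z = (0, z.2) := Prod.ext hz rfl
        rw [← h4]
      rw [h3]
      exact Relation.EqvGen.refl _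
    · have h2 : back V ψ (Pt.R i z) = Pt.P i (Function.invFunOn (ψ i) (V i) (bB z)) := if_neg hz
      have h3 : fw ψ (back V ψ (Pt.R i z)) = Pt.P i (bB z) := by
        rw [h2]
        show Pt.P i (ψ i (Function.invFunOn (ψ i) (V i) (bB z))) = Pt.P i (bB z)
        rw [psi_inv h i _ hr']
      rw [h3]
      exact Relation.EqvGen.rel _ _ (KatoData.Glue.blow i z hz hr')

theorem back_glue (h1 : S_DIR) (h : CC K K' V ψ δ') (p q : Pt n) (hg : K'.Glue p q) :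
    Relation.EqvGen K.Glue (back V ψ p) (back V ψ q) := by
  cases hg with
  | blow i z hz hU =>
    have h2 : back V ψ (Pt.R i z) = Pt.P i (Function.invFunOn (ψ i) (V i) (bB z)) := if_neg hz
    rw [h2]
    exact Relation.EqvGen.refl _
  | shift i y' hy' hb' =>
    obtain ⟨y, hy, rfl⟩ : ∃ y ∈ V i, ψ i y = y' := by
      rw [h.U_eq i] at hy'
      exact hy'
    show Relation.EqvGen K.Glue (Pt.P i (Function.invFunOn (ψ i) (V i) (ψ i y)))
      (Pt.P (i + 1) (Function.invFunOn (ψ (i + 1)) (V (i + 1)) (bA (K'.σ i (ψ i y)))))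
    rw [inv_psi h i y hy, h.conj i y hy, inv_psi h (i + 1) _ (h.maps i y hy)]
    exact Relation.EqvGen.rel _ _ (KatoData.Glue.shift i y (h.subU i hy)
      (fun h2 => hb' ((snd_iff h i y hy).2 h2)))
  | exc i y' hy' ha' =>
    obtain ⟨y, hy, rfl⟩ : ∃ y ∈ V i, ψ i y = y' := by
      rw [h.U_eq i] at hy'
      exact hy'
    have h2 : back V ψ (Pt.P i (ψ i y)) = Pt.P i y := by
      show Pt.P i (Function.invFunOn (ψ i) (V i) (ψ i y)) = Pt.P i y
      rw [inv_psi h i y hy]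
    rw [h2]
    by_cases hb' : (K'.σ i (ψ i y)).2 = 0
    · have hb : (K.σ i y).2 = 0 := (snd_iff h i y hy).1 hb'
      have ha : (K.σ i y).1 ≠ 0 := by
        intro h3
        have h4 : K.σ i y = K.σ i 0 := by
          rw [K.map_zero i]
          exact Prod.ext h3 hb
        have h5 : y = 0 := K.inj i (h.subU i hy) (h.subU i (zmem h i)) h4
        apply ha'
        rw [h5, h.zero i, K'.map_zero i]
        rfl
      obtain ⟨_, _, hd⟩ := (h1 n K K' V ψ δ' h).2 i y hy ha hb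
      have hn := nondeg h1 h (i + 1)
      have h3 : back V ψ (Pt.R (i + 1) (bK (K'.σ i (ψ i y)))) =
          Pt.R (i + 1) (bK (K.σ i y)) := by
        rw [bK_zero _ hb', bK_zero _ hb]
        have h4 : back V ψ (Pt.R (i + 1) (0, (K'.σ i (ψ i y)).1⁻¹)) =
          Pt.R (i + 1) (0, dirinv (fderiv ℂ (ψ (i + 1)) 0) (K'.σ i (ψ i y)).1⁻¹) := if_pos rfl
        rw [h4, hd, dirinv_dirm _ hn.1 hn.2]
      rw [h3]
      exact Relation.EqvGen.rel _ _ (KatoData.Glue.exc i y (h.subU i hy) ha)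
    · have hb : (K.σ i y).2 ≠ 0 := fun h3 => hb' ((snd_iff h i y hy).2 h3)
      have hne : (bK (K'.σ i (ψ i y))).1 ≠ 0 := mul_ne_zero ha' hb'
      have h3 : back V ψ (Pt.R (i + 1) (bK (K'.σ i (ψ i y)))) =
          Pt.P (i + 1) (Function.invFunOn (ψ (i + 1)) (V (i + 1))
            (bB (bK (K'.σ i (ψ i y))))) := if_neg hne
      rw [h3, bB_bK _ ha', h.conj i y hy, inv_psi h (i + 1) _ (h.maps i y hy)]
      exact Relation.EqvGen.rel _ _ (KatoData.Glue.shift i y (h.subU i hy) hb)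

theorem back_gen (h1 : S_DIR) (h : CC K K' V ψ δ') (p q : Pt n)
    (hg : Relation.EqvGen K'.Glue p q) :
    Relation.EqvGen K.Glue (back V ψ p) (back V ψ q) := by
  induction hg with
  | rel x y hxy => exact back_glue h1 h x y hxy
  | refl x => exact Relation.EqvGen.refl _
  | symm x y _ ih => exact Relation.EqvGen.symm _ _ ih
  | trans x y z _ _ ih1 ih2 => exact Relation.EqvGen.trans _ _ _ ih1 ih2

end

theorem t_TPFIB (h1 : S_DIR) (h2 : S_RED2) : S_TPFIB := by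
  intro n K K' V ψ δ' h
  refine ⟨fun r hr => claim1 h r hr, fun r hr => claim2 h1 h r hr, ?_⟩
  intro r hr r' hr'
  constructor
  · intro hg
    have h3 := h2 n K V δ' h.pos h.ball_sub h.subU h.maps (back V ψ r) (claim1 h r hr)
      (back V ψ r') (claim1 h r' hr') hg
    have h4 := fw_gen h1 h _ _ h3
    exact Relation.EqvGen.trans _ _ _ (fw_back h1 h r hr)
      (Relation.EqvGen.trans _ _ _ h4 (Relation.EqvGen.symm _ _ (fw_back h1 h r' hr')))
  · intro hg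
    exact back_gen h1 h r r' hg

end Pool.Agent.H650.EN_TPFIB
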