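import Mathlib
import Pool.Agent.H892.KT.EN

/-!
# The trace of the Kato germ (project EN, MP_686bb6_ag)
-/

set_option autoImplicit false

namespace Pool.Agent.H895.EN_TR

open Pool.Agent.H892.KT

/-- the product over the residue classes -/
theorem prod_zmod (k : ℕ) (f : ZMod (k + 1) → ℂ) :
    ∏ i : ZMod (k + 1), f i = f 0 * ∏ j ∈ Finset.range k, f (0 + 1 + (j : ZMod (k + 1))) := by
  have h1 : ∏ i : ZMod (k + 1), f i = f 0 * ∏ j : Fin k, f (j.succ : Fin (k + 1)) :=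
    Fin.prod_univ_succ (M := ℂ) (n := k) f
  rw [h1, Finset.prod_range]
  refine congrArg _ (Finset.prod_congr rfl fun j _ => ?_)
  have h2 := ZMod.natCast_zmod_val (n := k + 1) (j.succ : Fin (k + 1))
  have h3 : (ZMod.val (n := k + 1) (j.succ : Fin (k + 1))) = (j : ℕ) + 1 := rfl
  rw [h3] at h2
  have h4 : (0 + 1 + ((j : ℕ) : ZMod (k + 1))) = (((j : ℕ) + 1 : ℕ) : ZMod (k + 1)) := by
    rw [Nat.cast_add, Nat.cast_one]
    ring
  exact congrArg f (h4.trans h2).symm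

/-- the trace of an endomorphism of the plane -/
theorem trace_plane (A : ℂ × ℂ →L[ℂ] ℂ × ℂ) :
    LinearMap.trace ℂ (ℂ × ℂ) (A : (ℂ × ℂ) →ₗ[ℂ] (ℂ × ℂ)) = (A (1, 0)).1 + (A (0, 1)).2 := by
  rw [LinearMap.trace_eq_matrix_trace ℂ (Module.Basis.finTwoProd ℂ), Matrix.trace_fin_two,
    LinearMap.toMatrix_apply, LinearMap.toMatrix_apply, Module.Basis.finTwoProd_zero,
    Module.Basis.finTwoProd_one, Module.Basis.coe_finTwoProd_repr,
    Module.Basis.coe_finTwoProd_repr]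
  simp

theorem t_TR (h1 : S_FD) : S_TR := by
  intro n hn K
  obtain ⟨k, rfl⟩ : ∃ k, n = k + 1 := ⟨n - 1, by have := NeZero.ne n; omega⟩
  obtain ⟨A, hA, hAv⟩ := h1 (k + 1) K k 0
  have hprod := prod_zmod k fun i => (fderiv ℂ (K.σ i) 0 (0, 1)).2
  refine ⟨?_, fun hex => ?_⟩
  · rw [hA.fderiv, trace_plane, hAv, hAv, hprod, zero_add]
  · have h0 : ∏ i : ZMod (k + 1), (fderiv ℂ (K.σ i) 0 (0, 1)).2 = 0 := by
      obtain ⟨i, hi⟩ := hex
      exact Finset.prod_eq_zero (Finset.mem_univ i) hi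
    rw [h0] at hprod
    unfold KatoData.TraceZero
    rw [hA.fderiv]
    obtain ⟨P, hP⟩ : ∃ P, P = ∏ j ∈ Finset.range k,
      (fderiv ℂ (K.σ (0 + 1 + (j : ZMod (k + 1)))) 0 (0, 1)).2 := ⟨_, rfl⟩
    rw [← hP] at hprod hAv
    have hlin : ∀ s : ℂ, (fderiv ℂ (K.σ 0) 0 (0, s)).2 = s * (fderiv ℂ (K.σ 0) 0 (0, 1)).2 := by
      intro s
      have e : ((0 : ℂ), s) = s • ((0 : ℂ), (1 : ℂ)) := by simp
      rw [e, map_smul, Prod.smul_snd, smul_eq_mul]
    have hAA : ∀ v, A (A v) = 0 := by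
      intro v
      rw [hAv (A v), hAv v, hlin, mul_assoc, ← hprod, mul_zero]
      rfl
    refine ⟨2, ContinuousLinearMap.ext fun v => ?_⟩
    rw [pow_two]
    exact hAA v

end Pool.Agent.H895.EN_TR
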