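import Mathlib
import Pool.Agent.H892.KT.Stm

/-!
# Project KT of helper892: holomorphic maps of two variables are analytic (helper981)

Cauchy's formula on a bidisc, written with the analytic resolvent in the algebras of the continuous
functions on the two circles.
-/

set_option autoImplicit false

open Metric Complex Filter Topology
open Pool.Agent.H892.KT

namespace Pool.Agent.H981.KT

/-- The circle integral of a continuous function on the circle. -/
noncomputable def cI (a : ℂ) (r : ℝ) (hr : 0 ≤ r) : C(sphere a r, ℂ) →L[ℂ] ℂ :=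
  LinearMap.mkContinuous
    { toFun := fun g => ∫ θ in (0 : ℝ)..2 * Real.pi,
        (circleMap 0 r θ * I) * g ⟨circleMap a r θ, circleMap_mem_sphere a hr θ⟩
      map_add' := by
        intro g h
        rw [← intervalIntegral.integral_add]
        · congr 1
          funext θ
          rw [ContinuousMap.add_apply, mul_add]
        · apply Continuous.intervalIntegrable
          exact ((continuous_circleMap 0 r).mul continuous_const).mul
            (g.continuous.comp (Continuous.subtype_mk (continuous_circleMap a r) _))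
        · apply Continuous.intervalIntegrable
          exact ((continuous_circleMap 0 r).mul continuous_const).mul
            (h.continuous.comp (Continuous.subtype_mk (continuous_circleMap a r) _))
      map_smul' := by
        intro c g
        rw [RingHom.id_apply, ← intervalIntegral.integral_smul]
        congr 1
        funext θ
        rw [ContinuousMap.smul_apply, smul_eq_mul, smul_eq_mul]
        ring } (2 * Real.pi * r) (by
      intro g
      have h1 : ‖∫ θ in (0 : ℝ)..2 * Real.pi,
          (circleMap 0 r θ * I) * g ⟨circleMap a r θ, circleMap_mem_sphere a hr θ⟩‖ ≤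
          (r * ‖g‖) * |2 * Real.pi - 0| := by
        apply intervalIntegral.norm_integral_le_of_norm_le_const
        intro θ _
        rw [norm_mul, norm_mul, norm_I, mul_one, norm_circleMap_zero, abs_of_nonneg hr]
        exact mul_le_mul_of_nonneg_left (g.norm_coe_le_norm _) hr
      refine h1.trans (le_of_eq ?_)
      rw [sub_zero, abs_of_nonneg Real.two_pi_pos.le]
      ring)

theorem cI_apply (a : ℂ) (r : ℝ) (hr : 0 ≤ r) (g : C(sphere a r, ℂ)) (h : ℂ → ℂ)
    (hgh : ∀ z : sphere a r, g z = h z) : cI a r hr g = ∮ z in C(a, r), h z := by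
  show (∫ θ in (0 : ℝ)..2 * Real.pi,
        (circleMap 0 r θ * I) * g ⟨circleMap a r θ, circleMap_mem_sphere a hr θ⟩) = _
  unfold circleIntegral
  congr 1
  funext θ
  rw [deriv_circleMap, smul_eq_mul, hgh]

/-- The identity as a function on the circle. -/
noncomputable def idS (a : ℂ) (r : ℝ) : C(sphere a r, ℂ) := ⟨fun z => (z : ℂ), continuous_subtype_val⟩

theorem mem_res (a : ℂ) (r : ℝ) {z : ℂ} (hz : z ∈ ball a r) : z ∈ resolventSet ℂ (idS a r) := by
  rw [spectrum.mem_resolventSet_iff, ContinuousMap.isUnit_iff_forall_ne_zero]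
  intro ζ h
  have h1 : z - (ζ : ℂ) = 0 := by
    have : (algebraMap ℂ C(sphere a r, ℂ) z - idS a r) ζ = z - (ζ : ℂ) := by
      rw [ContinuousMap.sub_apply]; rfl
    rw [← this]; exact h
  have h2 : z = (ζ : ℂ) := sub_eq_zero.1 h1
  have h3 := mem_ball.1 hz
  have h4 := mem_sphere.1 ζ.2
  rw [h2, h4] at h3
  exact lt_irrefl _ h3

theorem res_apply (a : ℂ) (r : ℝ) {z : ℂ} (hz : z ∈ ball a r) (ζ : sphere a r) :
    -(resolvent (idS a r) z) ζ = ((ζ : ℂ) - z)⁻¹ := by
  have h := Ring.mul_inverse_cancel _ (spectrum.mem_resolventSet_iff.1 (mem_res a r hz))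
  have h1 : (z - (ζ : ℂ)) * (resolvent (idS a r) z) ζ = 1 := by
    have h2 : ((algebraMap ℂ C(sphere a r, ℂ) z - idS a r) *
      Ring.inverse (algebraMap ℂ C(sphere a r, ℂ) z - idS a r)) ζ = 1 := by
      rw [h]; rfl
    rw [ContinuousMap.mul_apply, ContinuousMap.sub_apply] at h2
    exact h2
  have h3 : ((ζ : ℂ) - z) * (-(resolvent (idS a r) z) ζ) = 1 := by
    rw [← h1]; ring
  exact eq_inv_of_mul_eq_one_right h3

theorem res_analytic (a : ℂ) {r : ℝ} (hr : 0 < r) :
    AnalyticAt ℂ (fun z => -resolvent (idS a r) z) a := by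
  have h1 : DifferentiableOn ℂ (resolvent (idS a r)) (ball a r) := by
    intro z hz
    exact (spectrum.hasDerivAt_resolvent_const_left (mem_res a r hz)).differentiableAt.differentiableWithinAt
  exact (h1.analyticAt (ball_mem_nhds a hr)).neg

/-- The functional of the second variable. -/
noncomputable def HH (a b : ℂ) (r : ℝ) (hr : 0 ≤ r) (F : C(sphere a r, C(sphere b r, ℂ))) :
    C(sphere b r, ℂ) →L[ℂ] C(sphere a r, ℂ) :=
  LinearMap.mkContinuous
    { toFun := fun k => ⟨fun ζ => cI b r hr (k * F ζ), by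
        exact (cI b r hr).continuous.comp (continuous_const.mul F.continuous)⟩
      map_add' := by
        intro k k'
        ext ζ
        show cI b r hr ((k + k') * F ζ) = cI b r hr (k * F ζ) + cI b r hr (k' * F ζ)
        rw [add_mul, map_add]
      map_smul' := by
        intro c k
        ext ζ
        show cI b r hr ((c • k) * F ζ) = c • cI b r hr (k * F ζ)
        rw [smul_mul_assoc, map_smul] } (‖cI b r hr‖ * ‖F‖) (by
      intro k
      rw [ContinuousMap.norm_le _ (by positivity)]
      intro ζ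
      show ‖cI b r hr (k * F ζ)‖ ≤ _
      calc ‖cI b r hr (k * F ζ)‖ ≤ ‖cI b r hr‖ * ‖k * F ζ‖ := (cI b r hr).le_opNorm _
        _ ≤ ‖cI b r hr‖ * (‖k‖ * ‖F ζ‖) :=
            mul_le_mul_of_nonneg_left (norm_mul_le _ _) (norm_nonneg _)
        _ ≤ ‖cI b r hr‖ * (‖k‖ * ‖F‖) := by
            apply mul_le_mul_of_nonneg_left _ (norm_nonneg _)
            exact mul_le_mul_of_nonneg_left (F.norm_coe_le_norm ζ) (norm_nonneg _)
        _ = ‖cI b r hr‖ * ‖F‖ * ‖k‖ := by ring)

theorem HH_apply (a b : ℂ) (r : ℝ) (hr : 0 ≤ r) (F : C(sphere a r, C(sphere b r, ℂ)))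
    (k : C(sphere b r, ℂ)) (ζ : sphere a r) : HH a b r hr F k ζ = cI b r hr (k * F ζ) := rfl

theorem ana_scalar (U : Set (ℂ × ℂ)) (f : ℂ × ℂ → ℂ) (hU : IsOpen U) (hf : DifferentiableOn ℂ f U)
    (x : ℂ × ℂ) (hx : x ∈ U) : AnalyticAt ℂ f x := by
  obtain ⟨a, b⟩ := x
  obtain ⟨ε, hε, hε'⟩ := Metric.isOpen_iff.1 hU (a, b) hx
  set r : ℝ := ε / 2 with hr
  have hr0 : 0 < r := by positivity
  have hsub : ∀ z w : ℂ, z ∈ closedBall a r → w ∈ closedBall b r → (z, w) ∈ U := by
    intro z w hz hw
    apply hε'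
    rw [mem_ball, Prod.dist_eq]
    have h1 := mem_closedBall.1 hz
    have h2 := mem_closedBall.1 hw
    exact max_lt (by simp only; linarith) (by simp only; linarith)
  have hda : ∀ p ∈ U, DifferentiableAt ℂ f p := fun p hp => hf.differentiableAt (hU.mem_nhds hp)
  -- the values on the torus
  let F₀ : C(sphere a r × sphere b r, ℂ) := ⟨fun p => f ((p.1 : ℂ), (p.2 : ℂ)), by
    rw [continuous_iff_continuousAt]
    intro p
    have h1 : ContinuousAt f ((p.1 : ℂ), (p.2 : ℂ)) :=
      (hda _ (hsub _ _ (sphere_subset_closedBall p.1.2) (sphere_subset_closedBall p.2.2))).continuousAt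
    have h2 : Continuous (fun p : sphere a r × sphere b r => ((p.1 : ℂ), (p.2 : ℂ))) := by
      fun_prop
    exact ContinuousAt.comp (f := fun p : sphere a r × sphere b r => ((p.1 : ℂ), (p.2 : ℂ)))
      (g := f) h1 h2.continuousAt⟩
  let F : C(sphere a r, C(sphere b r, ℂ)) := F₀.curry
  have hF : ∀ (ζ : sphere a r) (ξ : sphere b r), F ζ ξ = f ((ζ : ℂ), (ξ : ℂ)) := fun ζ ξ => rfl
  let G : ℂ × ℂ → ℂ := fun p => ((2 * Real.pi * I : ℂ)⁻¹ * (2 * Real.pi * I : ℂ)⁻¹) *
    cI a r hr0.le ((-resolvent (idS a r) p.1) *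
      HH a b r hr0.le F (-resolvent (idS b r) p.2))
  have hG : AnalyticAt ℂ G (a, b) := by
    have h1 : AnalyticAt ℂ (fun p : ℂ × ℂ => -resolvent (idS a r) p.1) (a, b) :=
      AnalyticAt.fun_comp (f := fun p : ℂ × ℂ => p.1) (g := fun z => -resolvent (idS a r) z)
        (res_analytic a hr0) analyticAt_fst
    have h2 : AnalyticAt ℂ (fun p : ℂ × ℂ => -resolvent (idS b r) p.2) (a, b) :=
      AnalyticAt.fun_comp (f := fun p : ℂ × ℂ => p.2) (g := fun z => -resolvent (idS b r) z)
        (res_analytic b hr0) analyticAt_snd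
    have h3 : AnalyticAt ℂ (fun p : ℂ × ℂ => HH a b r hr0.le F (-resolvent (idS b r) p.2)) (a, b) :=
      AnalyticAt.fun_comp (f := fun p : ℂ × ℂ => -resolvent (idS b r) p.2)
        (g := fun k => HH a b r hr0.le F k) ((HH a b r hr0.le F).analyticAt _) h2
    have h4 : AnalyticAt ℂ (fun p : ℂ × ℂ => cI a r hr0.le ((-resolvent (idS a r) p.1) *
        HH a b r hr0.le F (-resolvent (idS b r) p.2))) (a, b) :=
      AnalyticAt.fun_comp (f := fun p : ℂ × ℂ => (-resolvent (idS a r) p.1) *
        HH a b r hr0.le F (-resolvent (idS b r) p.2))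
        (g := fun k => cI a r hr0.le k) ((cI a r hr0.le).analyticAt _) (h1.mul h3)
    exact analyticAt_const.mul h4
  refine hG.congr ?_
  have hnb : ball a r ×ˢ ball b r ∈ 𝓝 (a, b) :=
    prod_mem_nhds (ball_mem_nhds a hr0) (ball_mem_nhds b hr0)
  filter_upwards [hnb] with p hp
  obtain ⟨z, w⟩ := p
  have hz : z ∈ ball a r := hp.1
  have hw : w ∈ ball b r := hp.2
  -- the formula in the second variable
  have hin : ∀ ζ : sphere a r, HH a b r hr0.le F (-resolvent (idS b r) w) ζ =
      (2 * Real.pi * I : ℂ) * f ((ζ : ℂ), w) := by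
    intro ζ
    rw [HH_apply, cI_apply b r hr0.le _ (fun ξ => (ξ - w)⁻¹ • f ((ζ : ℂ), ξ))]
    · have hd : DifferentiableOn ℂ (fun ξ => f ((ζ : ℂ), ξ)) (closedBall b r) := by
        intro ξ hξ
        have h1 := hda _ (hsub _ _ (sphere_subset_closedBall ζ.2) hξ)
        have h2 : DifferentiableAt ℂ (fun ξ : ℂ => ((ζ : ℂ), ξ)) ξ := by fun_prop
        exact (DifferentiableAt.comp (f := fun ξ : ℂ => ((ζ : ℂ), ξ)) (g := f) ξ h1
          h2).differentiableWithinAt
      have h3 := hd.circleIntegral_sub_inv_smul hw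
      rw [h3, smul_eq_mul]
    · intro ξ
      rw [ContinuousMap.mul_apply, ContinuousMap.neg_apply, res_apply b r hw ξ, hF, smul_eq_mul]
  have hout : cI a r hr0.le ((-resolvent (idS a r) z) *
      HH a b r hr0.le F (-resolvent (idS b r) w)) =
      (2 * Real.pi * I : ℂ) * ((2 * Real.pi * I : ℂ) * f (z, w)) := by
    rw [cI_apply a r hr0.le _ (fun ζ => (ζ - z)⁻¹ • ((2 * Real.pi * I : ℂ) * f (ζ, w)))]
    · have hd : DifferentiableOn ℂ (fun ζ => (2 * Real.pi * I : ℂ) * f (ζ, w)) (closedBall a r) := by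
        intro ζ hζ
        have h1 := hda _ (hsub _ _ hζ (ball_subset_closedBall hw))
        have h2 : DifferentiableAt ℂ (fun ζ : ℂ => (ζ, w)) ζ := by fun_prop
        exact ((DifferentiableAt.comp (f := fun ζ : ℂ => (ζ, w)) (g := f) ζ h1
          h2).const_mul _).differentiableWithinAt
      have h3 := hd.circleIntegral_sub_inv_smul hz
      rw [h3, smul_eq_mul]
    · intro ζ
      rw [ContinuousMap.mul_apply, ContinuousMap.neg_apply, res_apply a r hz ζ, hin, smul_eq_mul]
  show ((2 * Real.pi * I : ℂ)⁻¹ * (2 * Real.pi * I : ℂ)⁻¹) * _ = f (z, w)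
  rw [hout]
  have h0 : (2 * Real.pi * I : ℂ) ≠ 0 := Complex.two_pi_I_ne_zero
  field_simp

theorem t_ANA : S_ANA := by
  intro U f hU hf x hx
  have h1 : AnalyticAt ℂ (fun p => (f p).1) x :=
    ana_scalar U (fun p => (f p).1) hU (fun p hp => (hf p hp).fst) x hx
  have h2 : AnalyticAt ℂ (fun p => (f p).2) x :=
    ana_scalar U (fun p => (f p).2) hU (fun p hp => (hf p hp).snd) x hx
  exact h1.prod h2

end Pool.Agent.H981.KT
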