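import Mathlib
import Pool.Agent.H892.KT.W.Osgood540
import Pool.Agent.H892.KT.EN

/-!
# Kato surfaces: the new presentation is locally biholomorphic
-/

set_option autoImplicit false

open Filter Topology Set
open scoped Manifold ContDiff

namespace Pool.Agent.H142.EN_TPLOC

open Pool.Agent.H892.KT

/-- Injective holomorphic maps have invertible derivatives. -/
theorem inv_der {O : Set (ℂ × ℂ)} {φ : ℂ × ℂ → ℂ × ℂ} (hO : IsOpen O)
    (hφ : DifferentiableOn ℂ φ O) (hinj : InjOn φ O) {y : ℂ × ℂ} (hy : y ∈ O) :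
    ∃ A : (ℂ × ℂ) ≃L[ℂ] (ℂ × ℂ), fderiv ℂ φ y = A := by
  have h2 : Module.finrank ℂ (ℂ × ℂ) = 2 := by
    rw [Module.finrank_prod, Module.finrank_self]
  have hinj : Function.Injective (fderiv ℂ φ y) :=
    Pool.Agent.H892.KT.L540.osgood 2 (ℂ × ℂ) (ℂ × ℂ) h2 h2 O hO φ hφ hinj y hy
  have hinj' : Function.Injective (fderiv ℂ φ y : (ℂ × ℂ) →ₗ[ℂ] (ℂ × ℂ)) := hinj
  let e : (ℂ × ℂ) ≃ₗ[ℂ] (ℂ × ℂ) := LinearEquiv.ofInjectiveEndo _ hinj'
  refine ⟨e.toContinuousLinearEquiv, ?_⟩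
  ext <;> rfl

/-- If `g ∘ φ = q` near `y` for a local biholomorphism `q` and `φ` is locally biholomorphic at `y`,
then `g` is a local biholomorphism at `φ y`. -/
theorem loc_of (hMK : S_MK) {X : Type} [TopologicalSpace X] [ChartedSpace (ℂ × ℂ) X]
    [IsManifold 𝓘(ℂ, ℂ × ℂ) ω X] {q g : ℂ × ℂ → X} {y : ℂ × ℂ} {φ : ℂ × ℂ → ℂ × ℂ}
    {O : Set (ℂ × ℂ)} (hq : IsLocalDiffeomorphAt 𝓘(ℂ, ℂ × ℂ) 𝓘(ℂ, ℂ × ℂ) ω q y) (hO : IsOpen O)
    (hy : y ∈ O) (hφ : DifferentiableOn ℂ φ O)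
    (hA : ∃ A : (ℂ × ℂ) ≃L[ℂ] (ℂ × ℂ), fderiv ℂ φ y = A) (hg : ∀ w ∈ O, g (φ w) = q w) :
    IsLocalDiffeomorphAt 𝓘(ℂ, ℂ × ℂ) 𝓘(ℂ, ℂ × ℂ) ω g (φ y) := by
  obtain ⟨A, hA⟩ := hA
  obtain ⟨e, O', hO', hyO', hsub, hat, hval, hsrc⟩ := hMK X q y φ O A hq hO hy hφ hA
  let Φ : PartialDiffeomorph 𝓘(ℂ, ℂ × ℂ) 𝓘(ℂ, ℂ × ℂ) (ℂ × ℂ) X ω :=
    { toPartialEquiv := e.symm.toPartialEquiv
      open_source := e.symm.open_source
      open_target := e.symm.open_target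
      contMDiffOn_toFun := contMDiffOn_symm_of_mem_maximalAtlas hat
      contMDiffOn_invFun := contMDiffOn_of_mem_maximalAtlas hat }
  refine ⟨Φ, ?_, ?_⟩
  · show φ y ∈ e.target
    rw [← (hval y hyO').2]
    exact e.map_source (hval y hyO').1
  · intro z hz
    have hz' : z ∈ e.target := hz
    show g z = e.symm z
    obtain ⟨y', hy', hqy⟩ := hsrc (e.symm z) (e.map_target hz')
    have h1 : φ y' = z := by
      rw [← (hval y' hy').2, hqy, e.right_inv hz']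
    rw [← hqy, ← h1]
    exact hg y' (hsub hy')

theorem inv_fun {V : Set (ℂ × ℂ)} {ψ : ℂ × ℂ → ℂ × ℂ} (hinj : InjOn ψ V) {w : ℂ × ℂ}
    (hw : w ∈ V) : Function.invFunOn ψ V (ψ w) = w :=
  hinj (Function.invFunOn_mem ⟨w, hw, rfl⟩) hw (Function.invFunOn_eq ⟨w, hw, rfl⟩)

/-- the coefficients of an invertible linear map which preserves the direction `(0, 1)` -/
theorem dir_coef {A : ℂ × ℂ →L[ℂ] ℂ × ℂ} (hA : ∃ B : (ℂ × ℂ) ≃L[ℂ] (ℂ × ℂ), A = B)
    (hd : (A (0, 1)).1 = 0) : (A (1, 0)).1 ≠ 0 ∧ (A (0, 1)).2 ≠ 0 := by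
  obtain ⟨B, rfl⟩ := hA
  have hinj : ∀ v : ℂ × ℂ, (B : ℂ × ℂ →L[ℂ] ℂ × ℂ) v = 0 → v = 0 := fun v hv =>
    B.injective (by rw [map_zero]; exact hv)
  have hd2 : ((B : ℂ × ℂ →L[ℂ] ℂ × ℂ) (0, 1)).2 ≠ 0 := by
    intro h0
    have h1 : (B : ℂ × ℂ →L[ℂ] ℂ × ℂ) (0, 1) = 0 := Prod.ext hd h0
    have h2 := hinj _ h1
    have h3 := congrArg Prod.snd h2
    simp at h3
  refine ⟨?_, hd2⟩
  intro h0
  have h1 : (B : ℂ × ℂ →L[ℂ] ℂ × ℂ) (((B : ℂ × ℂ →L[ℂ] ℂ × ℂ) (0, 1)).2 • ((1, 0) : ℂ × ℂ) -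
      ((B : ℂ × ℂ →L[ℂ] ℂ × ℂ) (1, 0)).2 • ((0, 1) : ℂ × ℂ)) = 0 := by
    rw [map_sub, map_smul, map_smul]
    refine Prod.ext ?_ ?_
    · simp only [Prod.fst_sub, Prod.smul_fst, smul_eq_mul, Prod.fst_zero]
      rw [h0, hd]
      ring
    · simp only [Prod.snd_sub, Prod.smul_snd, smul_eq_mul, Prod.snd_zero]
      ring
  have h2 := congrArg Prod.fst (hinj _ h1)
  simp only [Prod.fst_sub, Prod.smul_fst, smul_eq_mul, Prod.fst_zero] at h2
  apply hd2
  linear_combination h2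

theorem t_TPLOC (hMK : S_MK) (h1 : S_LIFT) : S_TPLOC := by
  intro n K K' V ψ δ' hC X _ _ _ π hπ
  have h0V : ∀ i, (0 : ℂ × ℂ) ∈ V i := fun i => hC.ball_sub i (Metric.mem_ball_self hC.pos)
  have hbackP : ∀ i, ∀ w ∈ V i, back V ψ (.P i (ψ i w)) = .P i w := by
    intro i w hw
    show Pt.P i (Function.invFunOn (ψ i) (V i) (ψ i w)) = .P i w
    rw [inv_fun (hC.inj i) hw]
  have hbackR : ∀ i, ∀ w ∈ V i, ∀ z : ℂ × ℂ, z.1 ≠ 0 → bB z = ψ i w →
      back V ψ (.R i z) = .P i w := by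
    intro i w hw z hz hzw
    show (if z.1 = 0 then Pt.R i (0, dirinv (fderiv ℂ (ψ i) 0) z.2)
      else .P i (Function.invFunOn (ψ i) (V i) (bB z))) = .P i w
    rw [if_neg hz, hzw, inv_fun (hC.inj i) hw]
  refine ⟨fun i => ?_, fun i => ?_⟩
  · rintro ⟨y', hy', hy0'⟩
    rw [hC.U_eq i] at hy'
    obtain ⟨y, hy, rfl⟩ := hy'
    have hy0 : y ≠ 0 := by
      rintro rfl
      exact hy0' (hC.zero i)
    refine loc_of hMK (g := fun y => π (back V ψ (.P i y))) (q := fun y => π (.P i y))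
      (hπ.locP i ⟨y, hC.subU i hy, hy0⟩) (hC.isOpen i) hy (hC.diff i)
      (inv_der (hC.isOpen i) (hC.diff i) (hC.inj i) hy) ?_
    intro w hw
    show π (back V ψ (.P i (ψ i w))) = π (.P i w)
    rw [hbackP i w hw]
  · rintro ⟨z0, hz0⟩
    have hz0' : bB z0 ∈ K'.U i := hz0
    by_cases h0 : z0.1 = 0
    · -- a point of the exceptional curve
      obtain ⟨t', rfl⟩ : ∃ t', z0 = (0, t') := ⟨z0.2, Prod.ext h0 rfl⟩
      obtain ⟨A, hAdef⟩ : ∃ A : ℂ × ℂ →L[ℂ] ℂ × ℂ, A = fderiv ℂ (ψ i) 0 := ⟨_, rfl⟩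
      have hinv := inv_der (hC.isOpen i) (hC.diff i) (hC.inj i) (h0V i)
      obtain ⟨ha, hd⟩ := dir_coef (A := A) (by rw [hAdef]; exact hinv)
        (by rw [hAdef]; exact hC.dir i)
      have hm1 : dirm A (dirinv A t') = t' := by
        unfold dirm dirinv
        field_simp
        ring
      have hm2 : ∀ u : ℂ, dirinv A (dirm A u) = u := by
        intro u
        unfold dirm dirinv
        field_simp
        ring
      obtain ⟨O, Ψ, hO, htO, hΨ, hΨA, hΨB, hΨ0⟩ := h1 (V i) (ψ i) (hC.isOpen i) (h0V i) (hC.diff i)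
        (hC.zero i) (hC.dir i) hinv (dirinv A t')
      have hpt : Ψ (0, dirinv A t') = (0, t') := by
        rw [hΨ0 _ htO, ← hAdef, hm1]
      have hb0 : bB (0, dirinv A t') ∈ K.U i := hC.subU i (hΨB _ htO).1
      have key := loc_of hMK (g := fun z => π (back V ψ (.R i z))) (q := fun z => π (.R i z))
        (hπ.locR i ⟨(0, dirinv A t'), hb0⟩) hO htO hΨ hΨA (by
          intro w hw
          obtain ⟨hwV, hwB, hw1⟩ := hΨB w hw
          show π (back V ψ (.R i (Ψ w))) = π (.R i w)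
          by_cases hw0 : w.1 = 0
          · obtain ⟨u, rfl⟩ : ∃ u, w = (0, u) := ⟨w.2, Prod.ext hw0 rfl⟩
            have h3 : back V ψ (.R i (Ψ (0, u))) = .R i (0, u) := by
              rw [hΨ0 u hw]
              show (if (0 : ℂ) = 0 then Pt.R i (0, dirinv (fderiv ℂ (ψ i) 0)
                (dirm (fderiv ℂ (ψ i) 0) u)) else _) = .R i (0, u)
              rw [if_pos rfl, ← hAdef, hm2]
            rw [h3]
          · have hw2 : (Ψ w).1 ≠ 0 := fun h => hw0 (hw1.1 h)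
            rw [hbackR i (bB w) hwV (Ψ w) hw2 hwB]
            have hne : bB w ≠ 0 := fun h => hw0 (congrArg Prod.fst h)
            have hR : Pt.R i w ∈ K.dom := hC.subU i hwV
            have hP : Pt.P i (bB w) ∈ K.dom := ⟨hC.subU i hwV, hne⟩
            exact ((hπ.fibre _ hR _ hP).2
              (Relation.EqvGen.rel _ _ (KatoData.Glue.blow i w hw0 (hC.subU i hwV)))).symm)
      rw [hpt] at key
      exact key
    · -- a point outside of the exceptional curve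
      rw [hC.U_eq i] at hz0'
      obtain ⟨y, hy, hyz⟩ := hz0'
      obtain ⟨O, hOdef⟩ : ∃ O : Set (ℂ × ℂ), O = {w | w ∈ V i ∧ (ψ i w).1 ≠ 0} := ⟨_, rfl⟩
      have hmem : ∀ w, w ∈ O ↔ w ∈ V i ∧ (ψ i w).1 ≠ 0 := by
        intro w
        rw [hOdef]
        rfl
      have hfst : DifferentiableOn ℂ (fun w => (ψ i w).1) (V i) := (hC.diff i).fst
      have hsnd : DifferentiableOn ℂ (fun w => (ψ i w).2) (V i) := (hC.diff i).snd
      have hO : IsOpen O := by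
        have h2 : O = V i ∩ (fun w => (ψ i w).1) ⁻¹' {0}ᶜ := by
          ext w
          rw [hmem]
          rfl
        rw [h2]
        exact hfst.continuousOn.isOpen_inter_preimage (hC.isOpen i) isOpen_compl_singleton
      have hz1 : (ψ i y).1 = z0.1 := by rw [hyz]; rfl
      have hz2 : (ψ i y).2 = z0.1 * z0.2 := by rw [hyz]; rfl
      have hyO : y ∈ O := (hmem y).2 ⟨hy, by rw [hz1]; exact h0⟩
      have hφ : DifferentiableOn ℂ (fun w => ((ψ i w).1, (ψ i w).2 / (ψ i w).1)) O := by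
        have h3 : O ⊆ V i := fun w hw => ((hmem w).1 hw).1
        have h4 : DifferentiableOn ℂ (fun w => (ψ i w).2 * ((ψ i w).1)⁻¹) O :=
          (hsnd.mono h3).mul ((hfst.mono h3).inv fun w hw => ((hmem w).1 hw).2)
        have h5 : DifferentiableOn ℂ (fun w => (ψ i w).2 / (ψ i w).1) O :=
          h4.congr fun w _ => div_eq_mul_inv _ _
        exact (hfst.mono h3).prodMk h5
      have hbφ : ∀ w ∈ O, bB ((ψ i w).1, (ψ i w).2 / (ψ i w).1) = ψ i w := by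
        intro w hw
        have h3 := ((hmem w).1 hw).2
        refine Prod.ext rfl ?_
        show (ψ i w).1 * ((ψ i w).2 / (ψ i w).1) = (ψ i w).2
        field_simp
      have hinj : InjOn (fun w => ((ψ i w).1, (ψ i w).2 / (ψ i w).1)) O := by
        intro w hw w' hw' h
        have h3 : ψ i w = ψ i w' := by
          rw [← hbφ w hw, ← hbφ w' hw']
          exact congrArg bB h
        exact hC.inj i ((hmem w).1 hw).1 ((hmem w').1 hw').1 h3
      have hy0 : y ≠ 0 := by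
        rintro rfl
        apply h0
        rw [← hz1, hC.zero i]
        rfl
      have key := loc_of hMK (g := fun z => π (back V ψ (.R i z))) (q := fun y => π (.P i y))
        (hπ.locP i ⟨y, hC.subU i hy, hy0⟩) hO hyO hφ (inv_der hO hφ hinj hyO) (by
          intro w hw
          show π (back V ψ (.R i ((ψ i w).1, (ψ i w).2 / (ψ i w).1))) = π (.P i w)
          rw [hbackR i w ((hmem w).1 hw).1 ((ψ i w).1, (ψ i w).2 / (ψ i w).1)
            ((hmem w).1 hw).2 (hbφ w hw)])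
      have hpt : ((ψ i y).1, (ψ i y).2 / (ψ i y).1) = z0 := by
        refine Prod.ext hz1 ?_
        show (ψ i y).2 / (ψ i y).1 = z0.2
        rw [hz1, hz2]
        field_simp
      have key2 : IsLocalDiffeomorphAt 𝓘(ℂ, ℂ × ℂ) 𝓘(ℂ, ℂ × ℂ) ω
          (fun z => π (back V ψ (.R i z))) ((ψ i y).1, (ψ i y).2 / (ψ i y).1) := key
      rw [hpt] at key2
      exact key2

end Pool.Agent.H142.EN_TPLOC
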